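import Pool.Agent.Helper385.BlkDefs

set_option autoImplicit false

namespace Pool.Agent.Helper385.Blk.CV

variable {r : ℕ}




section Fold

variable {V E : Type} (lab : E → Fin r) (src tgt : E → V)

def st (b : Bool) (e : E) : V := if b then src e else tgt e
def en (b : Bool) (e : E) : V := if b then tgt e else src e

/-- invariant functions on edges -/
def Inv (s : Setoid V) (h : E → ZMod 2) : Prop :=
  ∀ e f, lab e = lab f → s.r (src e) (src f) → s.r (tgt e) (tgt f) → h e = h f

def Good (s : Setoid V) : Prop :=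
  ∀ h, Inv lab src tgt s h → ∃ (ψ : Fin r → ZMod 2) (g : V → ZMod 2),
    (∀ u v, s.r u v → g u = g v) ∧ ∀ e, h e = ψ (lab e) + g (src e) + g (tgt e)

/-- merge two classes -/
def mrg (s : Setoid V) (t1 t2 : V) : Setoid V where
  r u v := s.r u v ∨ ((s.r u t1 ∨ s.r u t2) ∧ (s.r v t1 ∨ s.r v t2))
  iseqv := by
    have hs := s.iseqv
    refine ⟨fun u => Or.inl (hs.refl u), ?_, ?_⟩
    · rintro u v (h | ⟨h1, h2⟩)
      · exact Or.inl (hs.symm h)
      · exact Or.inr ⟨h2, h1⟩
    · rintro u v w (h | ⟨h1, h2⟩) (h' | ⟨h1', h2'⟩)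
      · exact Or.inl (hs.trans h h')
      · refine Or.inr ⟨?_, h2'⟩
        rcases h1' with h1' | h1'
        · exact Or.inl (hs.trans h h1')
        · exact Or.inr (hs.trans h h1')
      · refine Or.inr ⟨h1, ?_⟩
        rcases h2 with h2 | h2
        · exact Or.inl (hs.trans (hs.symm h') h2)
        · exact Or.inr (hs.trans (hs.symm h') h2)
      · exact Or.inr ⟨h1, h2'⟩

theorem zmod2_add_self (a : ZMod 2) : a + a = 0 := CharTwo.add_self_eq_zero a

/-- invariance under the fold -/
theorem g_fold {s : Setoid V} {h : E → ZMod 2} {ψ : Fin r → ZMod 2} {g : V → ZMod 2}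
    (hg : ∀ u v, s.r u v → g u = g v) (he : ∀ e, h e = ψ (lab e) + g (src e) + g (tgt e))
    {b : Bool} {e1 e2 : E} (hl : lab e1 = lab e2)
    (hst : s.r (st src tgt b e1) (st src tgt b e2)) (hh : h e1 = h e2) :
    g (en src tgt b e1) = g (en src tgt b e2) := by
  have h1 := he e1
  have h2 := he e2
  rw [hh, h2, hl] at h1
  have h3 := hg _ _ hst
  cases b
  · simp only [st, en, Bool.false_eq_true, if_false] at h3 ⊢
    rw [h3] at h1
    linear_combination -h1
  · simp only [st, en, if_true] at h3 ⊢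
    rw [h3] at h1
    linear_combination -h1

theorem g_mrg {s : Setoid V} {g : V → ZMod 2} {t1 t2 : V}
    (hg : ∀ u v, s.r u v → g u = g v) (ht : g t1 = g t2) :
    ∀ u v, (mrg s t1 t2).r u v → g u = g v := by
  rintro u v (h | ⟨h1, h2⟩)
  · exact hg u v h
  · have a1 : g u = g t1 := by
      rcases h1 with h | h
      · exact hg _ _ h
      · rw [ht]; exact hg _ _ h
    have a2 : g v = g t1 := by
      rcases h2 with h | h
      · exact hg _ _ h
      · rw [ht]; exact hg _ _ h
    rw [a1, a2]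

/-- the equivalence of edges -/
def Eqv (s : Setoid V) (e f : E) : Prop :=
  lab e = lab f ∧ s.r (src e) (src f) ∧ s.r (tgt e) (tgt f)

theorem Eqv.symm' {s : Setoid V} {e f : E} (h : Eqv lab src tgt s e f) : Eqv lab src tgt s f e :=
  ⟨h.1.symm, s.iseqv.symm h.2.1, s.iseqv.symm h.2.2⟩

theorem Eqv.trans' {s : Setoid V} {e f g : E} (h : Eqv lab src tgt s e f)
    (h' : Eqv lab src tgt s f g) : Eqv lab src tgt s e g :=
  ⟨h.1.trans h'.1, s.iseqv.trans h.2.1 h'.2.1, s.iseqv.trans h.2.2 h'.2.2⟩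

theorem Eqv.refl' {s : Setoid V} (e : E) : Eqv lab src tgt s e e :=
  ⟨rfl, s.iseqv.refl _, s.iseqv.refl _⟩

theorem Eqv.en {s : Setoid V} {e f : E} (h : Eqv lab src tgt s e f) (b : Bool) :
    s.r (Blk.CV.en src tgt b e) (Blk.CV.en src tgt b f) := by
  cases b
  · exact h.2.1
  · exact h.2.2

theorem Eqv.st {s : Setoid V} {e f : E} (h : Eqv lab src tgt s e f) (b : Bool) :
    s.r (Blk.CV.st src tgt b e) (Blk.CV.st src tgt b f) := by
  cases b
  · exact h.2.2
  · exact h.2.1


/-- the conclusion -/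
def Concl (s : Setoid V) (PE : E → Prop) : Prop :=
  ∃ (c : V → Bool) (a : Fin r × Bool), (∀ u v, s.r u v → c u = c v) ∧
      (∀ z : Fin r × Bool, z ≠ a → ∀ f f', PE f → PE f' → lab f = z.1 → lab f' = z.1 →
        c (en src tgt z.2 f) = c (en src tgt z.2 f')) ∧
      (∀ f, PE f → lab f = a.1 → c (st src tgt a.2 f) = false) ∧
      ∃ f, PE f ∧ lab f = a.1 ∧ c (en src tgt a.2 f) = true

theorem en_not (b : Bool) (f : E) : en src tgt (!b) f = st src tgt b f := by
  cases b <;> rfl

theorem caseI (s : Setoid V) (PE : E → Prop) (b : Bool) (g1 g2 : E) (x : Fin r)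
    (hx2 : lab g2 = x) (hst : s.r (st src tgt b g1) (st src tgt b g2))
    (hen : ¬ s.r (en src tgt b g1) (en src tgt b g2))
    (h1 : s.r (st src tgt b g1) (en src tgt b g1))
    (hall : ∀ f, PE f → lab f = x → Eqv lab src tgt s g1 f ∨ Eqv lab src tgt s g2 f)
    (hoth : ∀ f f', PE f → PE f' → lab f = lab f' → lab f ≠ x → Eqv lab src tgt s f f')
    (hex : ∃ f, PE f ∧ Eqv lab src tgt s g2 f) : Concl lab src tgt s PE := by
  classical
  have hsr := s.iseqv
  let c : V → Bool := fun v => decide (s.r v (en src tgt b g2))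
  have hcol : ∀ u v, s.r u v → c u = c v := by
    intro u v h
    have : s.r u (en src tgt b g2) ↔ s.r v (en src tgt b g2) :=
      ⟨fun h' => hsr.trans (hsr.symm h) h', fun h' => hsr.trans h h'⟩
    exact decide_eq_decide.mpr this
  have hstart : ∀ f, PE f → lab f = x → s.r (st src tgt b f) (en src tgt b g1) := by
    intro f hf hl
    rcases hall f hf hl with h | h
    · exact hsr.trans (hsr.symm (h.st _ _ _ b)) h1
    · exact hsr.trans (hsr.symm (h.st _ _ _ b)) (hsr.trans (hsr.symm hst) h1)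
  refine ⟨c, (x, b), hcol, ?_, ?_, ?_⟩
  · rintro ⟨y, dd⟩ hz f f' hf hf' hl hl'
    change lab f = y at hl
    change lab f' = y at hl'
    change c (en src tgt dd f) = c (en src tgt dd f')
    by_cases hy : y = x
    · have hdd : dd ≠ b := by
        rintro rfl
        exact hz (by rw [hy])
      have hd : dd = !b := by
        cases dd <;> cases b <;> first | rfl | exact absurd rfl hdd
      apply hcol
      rw [hd, en_not, en_not]
      exact hsr.trans (hstart f hf (hl.trans hy)) (hsr.symm (hstart f' hf' (hl'.trans hy)))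
    · have h := hoth f f' hf hf' (hl.trans hl'.symm) (by rw [hl]; exact hy)
      exact hcol _ _ (h.en _ _ _ dd)
  · intro f hf hl
    change decide (s.r (st src tgt b f) (en src tgt b g2)) = false
    rw [decide_eq_false_iff_not]
    intro h2
    exact hen (hsr.trans (hsr.symm (hstart f hf hl)) h2)
  · obtain ⟨f, hf, he⟩ := hex
    refine ⟨f, hf, he.1.symm.trans hx2, ?_⟩
    change decide (s.r (en src tgt b f) (en src tgt b g2)) = true
    rw [decide_eq_true_eq]
    exact hsr.symm (he.en _ _ _ b)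

theorem caseII (s : Setoid V) (PE : E → Prop) (t1 t2 : V) (h12 : ¬ s.r t1 t2)
    (hP : ∀ f, PE f → (s.r (src f) t1 ∨ s.r (src f) t2) ∧ (s.r (tgt f) t1 ∨ s.r (tgt f) t2))
    (hall : ∀ f f', PE f → PE f' → lab f = lab f' → Eqv lab src tgt s f f')
    (hex : ∃ f, PE f ∧ ¬ s.r (src f) (tgt f)) : Concl lab src tgt s PE := by
  classical
  have hsr := s.iseqv
  let c : V → Bool := fun v => decide (s.r v t2)
  have hcol : ∀ u v, s.r u v → c u = c v := by
    intro u v h
    have : s.r u t2 ↔ s.r v t2 :=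
      ⟨fun h' => hsr.trans (hsr.symm h) h', fun h' => hsr.trans h h'⟩
    exact decide_eq_decide.mpr this
  obtain ⟨f, hf, hne⟩ := hex
  obtain ⟨b, hb1, hb2⟩ : ∃ b, c (st src tgt b f) = false ∧ c (en src tgt b f) = true := by
    obtain ⟨p1, p2⟩ := hP f hf
    rcases p1 with p1 | p1 <;> rcases p2 with p2 | p2
    · exact absurd (hsr.trans p1 (hsr.symm p2)) hne
    · refine ⟨true, ?_, ?_⟩
      · change decide (s.r (src f) t2) = false
        rw [decide_eq_false_iff_not]
        intro h
        exact h12 (hsr.trans (hsr.symm p1) h)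
      · change decide (s.r (tgt f) t2) = true
        rw [decide_eq_true_eq]
        exact p2
    · refine ⟨false, ?_, ?_⟩
      · change decide (s.r (tgt f) t2) = false
        rw [decide_eq_false_iff_not]
        intro h
        exact h12 (hsr.trans (hsr.symm p2) h)
      · change decide (s.r (src f) t2) = true
        rw [decide_eq_true_eq]
        exact p1
    · exact absurd (hsr.trans p1 (hsr.symm p2)) hne
  refine ⟨c, (lab f, b), hcol, ?_, ?_, ?_⟩
  · intro z _ g g' hg hg' hl hl'
    exact hcol _ _ ((hall g g' hg hg' (hl.trans hl'.symm)).en _ _ _ z.2)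
  · intro g hg hl
    change c (st src tgt b g) = false
    rw [hcol _ _ ((hall g f hg hf hl).st _ _ _ b), hb1]
  · exact ⟨f, hf, rfl, hb2⟩

theorem fold_main [Finite V] (s0 : Setoid V) (P : V → Prop) (PE : E → Prop)
    (hPE : ∀ f, PE f → P (src f) ∧ P (tgt f))
    (H1 : Good lab src tgt s0)
    (H2 : ¬ ∀ u v, P u → P v → s0.r u v)
    (H3 : ∀ s : Setoid V, s0 ≤ s →
      (∀ b e1 e2, lab e1 = lab e2 → s.r (st src tgt b e1) (st src tgt b e2) →
        s.r (en src tgt b e1) (en src tgt b e2)) → ∀ u v, P u → P v → s.r u v)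
    (H4 : ∀ c : V → Bool, (∀ f, PE f → c (src f) = c (tgt f)) → ∀ u v, P u → P v → c u = c v) :
    ∃ s : Setoid V, s0 ≤ s ∧ Concl lab src tgt s PE := by
  classical
  have hfin : Finite (Setoid V) := by
    apply Finite.of_injective (fun s : Setoid V => s.r)
    intro s s' h
    exact Setoid.ext fun a b => by
      have := congrFun (congrFun h a) b
      exact iff_of_eq this
  obtain ⟨s, hs⟩ := (Set.toFinite {s : Setoid V | s0 ≤ s ∧ Good lab src tgt s ∧
    ¬ ∀ u v, P u → P v → s.r u v}).exists_maximal ⟨s0, le_rfl, H1, H2⟩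
  obtain ⟨⟨hs0, hGood, hnT⟩, hmax⟩ := hs
  have hsr := s.iseqv
  -- not fold closed
  obtain ⟨b, e1, e2, hlab, hst, hen⟩ : ∃ b e1 e2, lab e1 = lab e2 ∧
      s.r (st src tgt b e1) (st src tgt b e2) ∧ ¬ s.r (en src tgt b e1) (en src tgt b e2) := by
    by_contra hcon
    push Not at hcon
    exact hnT (H3 s hs0 hcon)
  set t1 := en src tgt b e1 with ht1
  set t2 := en src tgt b e2 with ht2
  set s' := mrg s t1 t2 with hs'
  have hle : s ≤ s' := fun u v h => Or.inl h
  have hGood' : Good lab src tgt s' := by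
    intro h hinv
    have hinv2 : Inv lab src tgt s h := fun e f h1 h2 h3 => hinv e f h1 (Or.inl h2) (Or.inl h3)
    obtain ⟨ψ, g, hg, he⟩ := hGood h hinv2
    refine ⟨ψ, g, ?_, he⟩
    apply g_mrg hg
    apply g_fold lab src tgt hg he hlab hst
    have hm : s'.r (en src tgt b e1) (en src tgt b e2) :=
      Or.inr ⟨Or.inl (hsr.refl _), Or.inr (hsr.refl _)⟩
    have hm2 : s'.r (st src tgt b e1) (st src tgt b e2) := Or.inl hst
    apply hinv _ _ hlab
    · cases b
      · exact hm
      · exact hm2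
    · cases b
      · exact hm2
      · exact hm
  have hT' : ∀ u v, P u → P v → s'.r u v := by
    by_contra hcon
    have h1 := hmax ⟨hs0.trans hle, hGood', hcon⟩ hle
    have h2 : s.r t1 t2 := h1 (show s'.r t1 t2 from Or.inr ⟨Or.inl (hsr.refl _), Or.inr (hsr.refl _)⟩)
    exact hen h2
  have hP : ∀ v, P v → s.r v t1 ∨ s.r v t2 := by
    push Not at hnT
    obtain ⟨u, v, hu, hv, huv⟩ := hnT
    intro w hw
    rcases hT' u v hu hv with h | ⟨h1, h2⟩
    · exact absurd h huv
    · rcases hT' w u hw hu with h | ⟨h3, _⟩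
      · rcases h1 with h1 | h1
        · exact Or.inl (hsr.trans h h1)
        · exact Or.inr (hsr.trans h h1)
      · exact h3
  have hsym : ¬ s.r t2 t1 := fun h => hen (hsr.symm h)
  -- the property N
  have hN1 : ∀ f f', PE f → PE f' → lab f = lab f' → ¬ Eqv lab src tgt s f f' →
      ¬ (Eqv lab src tgt s e1 f ↔ Eqv lab src tgt s e2 f) := by
    intro f f' hf hf' hff hne hiff
    let h : E → ZMod 2 := fun e => if Eqv lab src tgt s e f then 1 else 0
    have hinv : Inv lab src tgt s h := by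
      intro e e' h1 h2 h3
      have h4 : Eqv lab src tgt s e e' := ⟨h1, h2, h3⟩
      have h5 : Eqv lab src tgt s e f ↔ Eqv lab src tgt s e' f :=
        ⟨fun h => (h4.symm').trans' _ _ _ h, fun h => h4.trans' _ _ _ h⟩
      simp only [h, h5]
    obtain ⟨ψ, g, hg, he⟩ := hGood h hinv
    have hh : h e1 = h e2 := by simp only [h, hiff]
    have hgt := g_fold lab src tgt hg he hlab hst hh
    have hg' := g_mrg hg hgt
    have h1 := he f
    have h2 := he f'
    rw [← hff, ← hg' _ _ (hT' _ _ (hPE f hf).1 (hPE f' hf').1),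
      ← hg' _ _ (hT' _ _ (hPE f hf).2 (hPE f' hf').2), ← h1] at h2
    have h3 : h f = 1 := by simp only [h]; rw [if_pos (Eqv.refl' _ _ _ f)]
    have h4 : h f' = 0 := by
      simp only [h]; rw [if_neg (fun hc => hne (hc.symm'))]
    rw [h3, h4] at h2
    exact absurd h2 (by decide)
  have hN : ∀ f f', PE f → PE f' → lab f = lab f' → Eqv lab src tgt s f f' ∨
      (Eqv lab src tgt s e1 f ∧ Eqv lab src tgt s e2 f') ∨
      (Eqv lab src tgt s e2 f ∧ Eqv lab src tgt s e1 f') := by
    intro f f' hf hf' hff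
    by_cases hne : Eqv lab src tgt s f f'
    · exact Or.inl hne
    · right
      have h1 := hN1 f f' hf hf' hff hne
      have h2 := hN1 f' f hf' hf hff.symm (fun h => hne h.symm')
      by_cases a1 : Eqv lab src tgt s e1 f
      · have a2 : ¬ Eqv lab src tgt s e2 f := fun h => h1 ⟨fun _ => h, fun _ => a1⟩
        left
        refine ⟨a1, ?_⟩
        have a3 : ¬ Eqv lab src tgt s e1 f' := fun h => hne ((a1.symm').trans' _ _ _ h)
        by_contra a4
        exact h2 ⟨fun h => absurd h a3, fun h => absurd h a4⟩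
      · have a2 : Eqv lab src tgt s e2 f := by
          by_contra h
          exact h1 ⟨fun h' => absurd h' a1, fun h' => absurd h' h⟩
        right
        refine ⟨a2, ?_⟩
        have a3 : ¬ Eqv lab src tgt s e2 f' := fun h => hne ((a2.symm').trans' _ _ _ h)
        by_contra a4
        exact h2 ⟨fun h => absurd h a4, fun h => absurd h a3⟩
  refine ⟨s, hs0, ?_⟩
  by_cases hI : ∃ f f', PE f ∧ PE f' ∧ Eqv lab src tgt s e1 f ∧ Eqv lab src tgt s e2 f'
  · -- case I
    obtain ⟨f1, f2, hf1, hf2, he1, he2⟩ := hI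
    have hstP : s.r (st src tgt b e1) t1 ∨ s.r (st src tgt b e1) t2 := by
      have h1 : P (st src tgt b f1) := by
        cases b
        · exact (hPE f1 hf1).2
        · exact (hPE f1 hf1).1
      have h2 := he1.st _ _ _ b
      rcases hP _ h1 with h | h
      · exact Or.inl (hsr.trans h2 h)
      · exact Or.inr (hsr.trans h2 h)
    have hall : ∀ f, PE f → lab f = lab e1 →
        Eqv lab src tgt s e1 f ∨ Eqv lab src tgt s e2 f := by
      intro f hf hl
      rcases hN f f1 hf hf1 (hl.trans he1.1) with h | ⟨h, _⟩ | ⟨h, _⟩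
      · exact Or.inl (he1.trans' _ _ _ h.symm')
      · exact Or.inl h
      · exact Or.inr h
    have hoth : ∀ f f', PE f → PE f' → lab f = lab f' → lab f ≠ lab e1 →
        Eqv lab src tgt s f f' := by
      intro f f' hf hf' hl hne
      rcases hN f f' hf hf' hl with h | ⟨h, _⟩ | ⟨h, _⟩
      · exact h
      · exact absurd h.1.symm hne
      · exact absurd (h.1.symm.trans hlab.symm) hne
    rcases hstP with hc | hc
    · exact caseI lab src tgt s PE b e1 e2 (lab e1) hlab.symm hst hen hc hall hoth ⟨f2, hf2, he2⟩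
    · exact caseI lab src tgt s PE b e2 e1 (lab e1) rfl (hsr.symm hst) hsym
        (hsr.trans (hsr.symm hst) hc) (fun f hf hl => (hall f hf hl).symm) hoth ⟨f1, hf1, he1⟩
  · -- case II
    apply caseII lab src tgt s PE t1 t2 hen
    · intro f hf
      exact ⟨hP _ (hPE f hf).1, hP _ (hPE f hf).2⟩
    · intro f f' hf hf' hl
      rcases hN f f' hf hf' hl with h | ⟨h1, h2⟩ | ⟨h1, h2⟩
      · exact h
      · exact absurd ⟨f, f', hf, hf', h1, h2⟩ hI
      · exact absurd ⟨f', f, hf', hf, h2, h1⟩ hI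
    · by_contra hcon
      push Not at hcon
      push Not at hnT
      obtain ⟨u, v, hu, hv, huv⟩ := hnT
      have h1 := H4 (fun w => decide (s.r w u)) (by
        intro f hf
        have h := hcon f hf
        have : s.r (src f) u ↔ s.r (tgt f) u :=
          ⟨fun h' => hsr.trans (hsr.symm h) h', fun h' => hsr.trans h h'⟩
        exact decide_eq_decide.mpr this) u v hu hv
      have h2 := decide_eq_decide.mp h1
      exact huv (hsr.symm (h2.mp (hsr.refl u)))

end Fold

theorem ext_perm {C : Type} [Finite C] (R : C → C → Prop) (h1 : ∀ a b b', R a b → R a b' → b = b')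
    (h2 : ∀ a a' b, R a b → R a' b → a = a') : ∃ π : Equiv.Perm C, ∀ a b, R a b → π a = b := by
  classical
  have := Fintype.ofFinite C
  choose f hf using fun a : {a // ∃ b, R a b} => a.2
  let e0 : {a // ∃ b, R a b} → {b // ∃ a, R a b} := fun a => ⟨f a, a.1, hf a⟩
  have hb : Function.Bijective e0 := by
    constructor
    · intro a a' h
      have h3 : f a = f a' := congrArg Subtype.val h
      have h4 := hf a
      rw [h3] at h4
      exact Subtype.ext (h2 _ _ _ h4 (hf a'))
    · rintro ⟨b, a, hab⟩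
      exact ⟨⟨a, b, hab⟩, Subtype.ext (h1 _ _ _ (hf ⟨a, b, hab⟩) hab)⟩
  refine ⟨(Equiv.ofBijective e0 hb).extendSubtype, ?_⟩
  intro a b hab
  have h3 : ∃ b, R a b := ⟨b, hab⟩
  rw [Equiv.extendSubtype_apply_of_mem _ a h3]
  exact h1 _ _ _ (hf ⟨a, h3⟩) hab

section Petal

variable (W : Fin r → List (Lt r))

/-- positions -/
abbrev PV : Type := Σ j : Fin r, Fin ((W j).length + 1)
/-- edges -/
abbrev PEd : Type := Σ j : Fin r, Fin (W j).length

def lt (e : PEd W) : Lt r := (W e.1).get e.2
def q0 (e : PEd W) : PV W := ⟨e.1, e.2.castSucc⟩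
def q1 (e : PEd W) : PV W := ⟨e.1, e.2.succ⟩
def plab (e : PEd W) : Fin r := (lt W e).1
def psrc (e : PEd W) : PV W := if (lt W e).2 then q0 W e else q1 W e
def ptgt (e : PEd W) : PV W := if (lt W e).2 then q1 W e else q0 W e

theorem en_lt (e : PEd W) : en (psrc W) (ptgt W) (lt W e).2 e = q1 W e := by
  unfold en psrc ptgt
  cases (lt W e).2 <;> rfl

theorem st_lt (e : PEd W) : st (psrc W) (ptgt W) (lt W e).2 e = q0 W e := by
  unfold st psrc ptgt
  cases (lt W e).2 <;> rfl

/-- ends of petals -/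
def End (v : PV W) : Prop := v.2.val = 0 ∨ v.2.val = (W v.1).length

def base : Setoid (PV W) where
  r u v := u = v ∨ (End W u ∧ End W v)
  iseqv := by
    refine ⟨fun u => Or.inl rfl, ?_, ?_⟩
    · rintro u v (h | ⟨h1, h2⟩)
      · exact Or.inl h.symm
      · exact Or.inr ⟨h2, h1⟩
    · rintro u v w (rfl | ⟨h1, h2⟩) h'
      · exact h'
      · rcases h' with rfl | ⟨h3, h4⟩
        · exact Or.inr ⟨h1, h2⟩
        · exact Or.inr ⟨h1, h4⟩

/-- sums over a word -/
def wsum (χ : Fin r → ZMod 2) (L : List (Lt r)) : ZMod 2 := (L.map (fun l => χ l.1)).sum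

theorem lift_wsum (χ : Fin r → ZMod 2) (L : List (Lt r)) :
    FreeGroup.lift (fun x => Multiplicative.ofAdd (χ x)) (FreeGroup.mk L) =
      Multiplicative.ofAdd (wsum χ L) := by
  rw [FreeGroup.lift_mk]
  induction L with
  | nil => rfl
  | cons l L ih =>
    rw [List.map_cons, List.prod_cons, ih]
    have h1 : (bif l.2 then Multiplicative.ofAdd (χ l.1) else (Multiplicative.ofAdd (χ l.1))⁻¹) =
        Multiplicative.ofAdd (χ l.1) := by
      cases l.2
      · rw [cond_false, ← ofAdd_neg, CharTwo.neg_eq]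
      · rfl
    rw [h1, ← ofAdd_add]
    rfl

variable (φ : MulAut (FreeGroup (Fin r))) (hφ : ∀ j, φ (FreeGroup.of j) = FreeGroup.mk (W j))

include hφ in
theorem wsum_surj (H : Fin r → ZMod 2) : ∃ ψ : Fin r → ZMod 2, ∀ j, wsum ψ (W j) = H j := by
  have hinj : Function.Injective (fun (ψ : Fin r → ZMod 2) (j : Fin r) => wsum ψ (W j)) := by
    intro ψ ψ' h
    let χ : Fin r → ZMod 2 := fun x => ψ x - ψ' x
    have h0 : ∀ L : List (Lt r), wsum χ L = wsum ψ L - wsum ψ' L := by
      intro L
      induction L with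
      | nil => simp [wsum]
      | cons l L ih =>
        simp only [wsum, List.map_cons, List.sum_cons] at ih ⊢
        rw [ih]
        simp only [χ]
        ring
    have h1 : ∀ j, wsum χ (W j) = 0 := by
      intro j
      rw [h0, sub_eq_zero]
      exact congrFun h j
    have h2 : (FreeGroup.lift (fun x => Multiplicative.ofAdd (χ x))).comp φ.toMonoidHom =
        (1 : FreeGroup (Fin r) →* Multiplicative (ZMod 2)) := by
      apply FreeGroup.ext_hom
      intro j
      change FreeGroup.lift (fun x => Multiplicative.ofAdd (χ x)) (φ (FreeGroup.of j)) = 1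
      rw [hφ, lift_wsum, h1]
      rfl
    funext x
    have h3 := congrArg (fun F => F (φ.symm (FreeGroup.of x))) h2
    have h4 : FreeGroup.lift (fun x => Multiplicative.ofAdd (χ x)) (FreeGroup.of x) = 1 := by
      have h5 : (φ.toMonoidHom (φ.symm (FreeGroup.of x))) = FreeGroup.of x :=
        φ.apply_symm_apply _
      rw [← h5]
      exact h3
    rw [FreeGroup.lift_apply_of] at h4
    have h5 : χ x = 0 := h4
    exact sub_eq_zero.mp h5
  have hsurj := Finite.injective_iff_surjective.mp hinj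
  obtain ⟨ψ, hψ⟩ := hsurj H
  exact ⟨ψ, fun j => congrFun hψ j⟩

include hφ in
theorem good_base : Good (plab W) (psrc W) (ptgt W) (base W) := by
  intro h _
  obtain ⟨ψ, hψ⟩ := wsum_surj W φ hφ (fun j => ∑ k : Fin (W j).length, h ⟨j, k⟩)
  let D : Fin r → ℕ → ZMod 2 := fun j i =>
    if hi : i < (W j).length then h ⟨j, ⟨i, hi⟩⟩ + ψ (plab W ⟨j, ⟨i, hi⟩⟩) else 0
  let g : PV W → ZMod 2 := fun v => ∑ i ∈ Finset.range v.2.val, D v.1 i
  have hstep : ∀ e : PEd W, g (q1 W e) = g (q0 W e) + (h e + ψ (plab W e)) := by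
    rintro ⟨j, k, hk⟩
    change ∑ i ∈ Finset.range (k + 1), D j i = ∑ i ∈ Finset.range k, D j i + _
    rw [Finset.sum_range_succ]
    congr 1
    simp only [D, dif_pos hk]
  have hend : ∀ v, End W v → g v = 0 := by
    rintro ⟨j, k⟩ hv
    rcases hv with hv | hv
    · change ∑ i ∈ Finset.range k.val, D j i = 0
      change k.val = 0 at hv
      rw [hv]; rfl
    · change ∑ i ∈ Finset.range k.val, D j i = 0
      change k.val = (W j).length at hv
      rw [hv, Finset.sum_range]
      have h1 : ∀ i : Fin (W j).length, D j i = h ⟨j, i⟩ + ψ (plab W ⟨j, i⟩) := by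
        intro i
        simp only [D, dif_pos i.2]
      simp only [h1]
      rw [Finset.sum_add_distrib]
      have h2 : ∑ i : Fin (W j).length, ψ (plab W ⟨j, i⟩) = wsum ψ (W j) := by
        rw [wsum, ← Fin.sum_univ_fun_getElem]
        rfl
      rw [h2, hψ]
      exact CharTwo.add_self_eq_zero _
  refine ⟨ψ, g, ?_, ?_⟩
  · rintro u v (rfl | ⟨h1, h2⟩)
    · rfl
    · rw [hend u h1, hend v h2]
  · intro e
    have h1 := hstep e
    have h2 : g (psrc W e) + g (ptgt W e) = g (q0 W e) + g (q1 W e) := by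
      unfold psrc ptgt
      cases (lt W e).2
      · exact add_comm _ _
      · rfl
    rw [add_assoc, h2, h1]
    have e1 : ψ (plab W e) + (g (q0 W e) + (g (q0 W e) + (h e + ψ (plab W e)))) =
        (ψ (plab W e) + ψ (plab W e)) + (g (q0 W e) + g (q0 W e)) + h e := by ring
    rw [e1, CharTwo.add_self_eq_zero, CharTwo.add_self_eq_zero, zero_add, zero_add]

include hφ in
theorem total_of_closed (i : Fin r) (s : Setoid (PV W)) (hs0 : base W ≤ s)
    (hcl : ∀ b e1 e2, plab W e1 = plab W e2 →
      s.r (st (psrc W) (ptgt W) b e1) (st (psrc W) (ptgt W) b e2) →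
      s.r (en (psrc W) (ptgt W) b e1) (en (psrc W) (ptgt W) b e2)) :
    ∀ u v : PV W, u.1 = i → v.1 = i → s.r u v := by
  classical
  let C := Quotient s
  have hR : ∀ x : Fin r, ∃ π : Equiv.Perm C, ∀ a b,
      (∃ e, plab W e = x ∧ Quotient.mk s (psrc W e) = a ∧ Quotient.mk s (ptgt W e) = b) →
        π a = b := by
    intro x
    apply ext_perm
    · rintro a b b' ⟨e, he, h1, h2⟩ ⟨e', he', h1', h2'⟩
      rw [← h2, ← h2']
      apply Quotient.sound
      apply hcl true e e' (he.trans he'.symm)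
      exact Quotient.exact (h1.trans h1'.symm)
    · rintro a a' b ⟨e, he, h1, h2⟩ ⟨e', he', h1', h2'⟩
      rw [← h1, ← h1']
      apply Quotient.sound
      apply hcl false e e' (he.trans he'.symm)
      exact Quotient.exact (h2.trans h2'.symm)
  choose π hπ using hR
  let Φ : FreeGroup (Fin r) →* Equiv.Perm C := FreeGroup.lift (fun x => (π x)⁻¹)
  have hlet : ∀ e : PEd W, Φ (FreeGroup.mk [lt W e]) (Quotient.mk s (q1 W e)) =
      Quotient.mk s (q0 W e) := by
    intro e
    have h1 := hπ (plab W e) _ _ ⟨e, rfl, rfl, rfl⟩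
    have h2 : Φ (FreeGroup.mk [lt W e]) =
        (bif (lt W e).2 then (π (plab W e))⁻¹ else ((π (plab W e))⁻¹)⁻¹) := by
      simp only [Φ]
      rw [FreeGroup.lift_mk]
      simp [plab]
    rw [h2]
    unfold psrc ptgt at h1
    cases hb : (lt W e).2
    · rw [hb] at h1
      simpa using h1
    · rw [hb] at h1
      rw [cond_true, Equiv.Perm.inv_eq_iff_eq]
      simpa using h1.symm
  have hpath : ∀ (j : Fin r) (k : ℕ) (hk : k < (W j).length + 1),
      Φ (FreeGroup.mk ((W j).take k)) (Quotient.mk s ⟨j, ⟨k, hk⟩⟩) =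
        Quotient.mk s ⟨j, ⟨0, by omega⟩⟩ := by
    intro j k
    induction k with
    | zero =>
      intro hk
      rw [List.take_zero]
      have : Φ (FreeGroup.mk []) = 1 := by
        rw [← FreeGroup.one_eq_mk, map_one]
      rw [this]
      rfl
    | succ k ih =>
      intro hk
      have hk' : k < (W j).length := by omega
      have h1 := hlet ⟨j, ⟨k, hk'⟩⟩
      have h2 : (W j).take (k + 1) = (W j).take k ++ [(W j)[k]] := by
        rw [List.take_succ_eq_append_getElem hk']
      rw [h2, ← FreeGroup.mul_mk, map_mul, Equiv.Perm.mul_apply]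
      have h3 := ih (by omega)
      rw [← h3]
      congr 1
  have hbase : ∀ v : PV W, End W v → Quotient.mk s v = Quotient.mk s ⟨i, ⟨0, by omega⟩⟩ := by
    intro v hv
    apply Quotient.sound
    exact hs0 (show (base W).r _ _ from Or.inr ⟨hv, Or.inl rfl⟩)
  set bs : C := Quotient.mk s ⟨i, ⟨0, by omega⟩⟩ with hbs
  have hgen : ∀ j, Φ (φ (FreeGroup.of j)) bs = bs := by
    intro j
    rw [hφ]
    have h1 := hpath j (W j).length (by omega)
    rw [List.take_length, hbase _ (Or.inr rfl), hbase ⟨j, ⟨0, by omega⟩⟩ (Or.inl rfl)] at h1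
    exact h1
  have hall : ∀ g : FreeGroup (Fin r), Φ (φ g) bs = bs := by
    intro g
    induction g using FreeGroup.induction_on with
    | C1 => simp
    | of x => exact hgen x
    | inv_of x ih =>
      rw [map_inv, map_inv, Equiv.Perm.inv_eq_iff_eq]
      exact (hgen x).symm
    | mul x y hx hy =>
      rw [map_mul, map_mul, Equiv.Perm.mul_apply, hy, hx]
  have hall' : ∀ g : FreeGroup (Fin r), Φ g bs = bs := by
    intro g
    have := hall (φ.symm g)
    rwa [MulEquiv.apply_symm_apply] at this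
  have hpos : ∀ v : PV W, v.1 = i → Quotient.mk s v = bs := by
    rintro ⟨j, k, hk⟩ hj
    change j = i at hj
    subst hj
    have h1 := hpath j k hk
    have h2 := hall' (FreeGroup.mk ((W j).take k))
    rw [← hbs] at h1
    exact (Φ (FreeGroup.mk ((W j).take k))).injective (h1.trans h2.symm)
  intro u v hu hv
  exact Quotient.exact ((hpos u hu).trans (hpos v hv).symm)

include hφ in
theorem petal_main (i : Fin r) (h2 : 2 ≤ (W i).length) :
    ∃ (c : PV W → Bool) (a : Lt r),
      c ⟨i, ⟨(W i).length, by omega⟩⟩ = c ⟨i, ⟨0, by omega⟩⟩ ∧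
      (∀ z : Lt r, z ≠ a → ∀ f f' : PEd W, f.1 = i → f'.1 = i → plab W f = z.1 →
        plab W f' = z.1 → c (en (psrc W) (ptgt W) z.2 f) = c (en (psrc W) (ptgt W) z.2 f')) ∧
      (∀ f : PEd W, f.1 = i → plab W f = a.1 → c (st (psrc W) (ptgt W) a.2 f) = false) ∧
      ∃ f : PEd W, f.1 = i ∧ plab W f = a.1 ∧ c (en (psrc W) (ptgt W) a.2 f) = true := by
  obtain ⟨s, hs, c, a, h1, h2', h3, h4⟩ := fold_main (plab W) (psrc W) (ptgt W) (base W)
    (fun v => v.1 = i) (fun f => f.1 = i) (by
      intro f hf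
      constructor
      · unfold psrc
        cases (lt W f).2 <;> exact hf
      · unfold ptgt
        cases (lt W f).2 <;> exact hf)
    (good_base W φ hφ) (by
      intro hcon
      have := hcon ⟨i, ⟨0, by omega⟩⟩ ⟨i, ⟨1, by omega⟩⟩ rfl rfl
      rcases this with h | ⟨_, h | h⟩
      · have h5 := eq_of_heq (Sigma.mk.inj h).2
        have h6 := congrArg Fin.val h5
        simp at h6
      · simp at h
      · change 1 = (W i).length at h
        omega)
    (fun s hs0 hcl => total_of_closed W φ hφ i s hs0 hcl) (by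
      intro c hc
      have key : ∀ (k : ℕ) (hk : k < (W i).length + 1),
          c ⟨i, ⟨k, hk⟩⟩ = c ⟨i, ⟨0, by omega⟩⟩ := by
        intro k
        induction k with
        | zero => intro hk; rfl
        | succ k ih =>
          intro hk
          have hk' : k < (W i).length := by omega
          have h5 := hc ⟨i, ⟨k, hk'⟩⟩ rfl
          have h6 : c (q0 W ⟨i, ⟨k, hk'⟩⟩) = c (q1 W ⟨i, ⟨k, hk'⟩⟩) := by
            unfold psrc ptgt at h5
            cases hb : (lt W ⟨i, ⟨k, hk'⟩⟩).2
            · rw [hb] at h5; exact h5.symm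
            · rw [hb] at h5; exact h5
          rw [← ih (by omega)]
          exact h6.symm
      rintro ⟨j, k, hk⟩ ⟨j', k', hk'⟩ hj hj'
      change j = i at hj
      change j' = i at hj'
      subst hj
      subst hj'
      rw [key k hk, key k' hk'])
  refine ⟨c, a, ?_, h2', h3, h4⟩
  apply h1
  exact hs (show (base W).r _ _ from Or.inr ⟨Or.inr rfl, Or.inl rfl⟩)

end Petal


section Final

variable (W : Fin r → List (Lt r))

theorem iv_iv (y : Lt r) : iv (iv y) = y := by
  unfold iv
  simp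

theorem final_word (i : Fin r) (h2 : 2 ≤ (W i).length)
    (hw : List.IsChain (fun p q => q ≠ iv p) ((W i) ++ (W i).take 1))
    (c : PV W → Bool) (a : Lt r)
    (h0 : c ⟨i, ⟨(W i).length, by omega⟩⟩ = c ⟨i, ⟨0, by omega⟩⟩)
    (P1 : ∀ z : Lt r, z ≠ a → ∀ f f' : PEd W, f.1 = i → f'.1 = i → plab W f = z.1 →
      plab W f' = z.1 → c (en (psrc W) (ptgt W) z.2 f) = c (en (psrc W) (ptgt W) z.2 f'))
    (P2 : ∀ f : PEd W, f.1 = i → plab W f = a.1 → c (st (psrc W) (ptgt W) a.2 f) = false)
    (P3 : ∃ f : PEd W, f.1 = i ∧ plab W f = a.1 ∧ c (en (psrc W) (ptgt W) a.2 f) = true) :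
    ∃ (a : Lt r) (A : Lt r → Bool), A a = false ∧ A (iv a) = false ∧
      List.IsChain (fun p q => (A p = true → A (iv q) = true ∨ q = iv a) ∧
        (A (iv q) = true → A p = true ∨ p = a)) ((W i) ++ (W i).take 1) ∧
      ∃ p q, [p, q] <:+: ((W i) ++ (W i).take 1) ∧
        ((p = a ∧ A (iv q) = true) ∨ (q = iv a ∧ A p = true)) := by
  classical
  set n := (W i).length with hn
  set L := (W i) ++ (W i).take 1 with hL
  have hLn : L.length = n + 1 := by
    rw [hL, List.length_append, List.length_take]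
    omega
  have hLk : ∀ k (hk : k < n), L[k]'(by omega) = (W i)[k] := by
    intro k hk
    simp only [hL]
    rw [List.getElem_append_left]
  have hLn' : L[n]'(by omega) = (W i)[0]'(by omega) := by
    simp only [hL]
    rw [List.getElem_append_right (by omega)]
    simp [hn]
  let A : Lt r → Bool := fun z => decide (z ≠ a ∧ ∃ f : PEd W, f.1 = i ∧ plab W f = z.1 ∧
    c (en (psrc W) (ptgt W) z.2 f) = true)
  have hA : ∀ z, A z = true ↔ (z ≠ a ∧ ∃ f : PEd W, f.1 = i ∧ plab W f = z.1 ∧
    c (en (psrc W) (ptgt W) z.2 f) = true) := fun z => decide_eq_true_iff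
  have hAf : ∀ z (f : PEd W), z ≠ a → f.1 = i → plab W f = z.1 →
      (A z = true ↔ c (en (psrc W) (ptgt W) z.2 f) = true) := by
    intro z f hz hf hl
    rw [hA]
    constructor
    · rintro ⟨_, f', hf', hl', hc⟩
      rw [P1 z hz f f' hf hf' hl hl', hc]
    · intro hc
      exact ⟨hz, f, hf, hl, hc⟩
  -- colour of positions
  have K1 : ∀ k (hk : k < n), (W i)[k] ≠ a →
      (A (W i)[k] = true ↔ c ⟨i, ⟨k + 1, by omega⟩⟩ = true) := by
    intro k hk hne
    rw [hAf _ ⟨i, ⟨k, hk⟩⟩ hne rfl rfl]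
    have := en_lt W ⟨i, ⟨k, hk⟩⟩
    change en (psrc W) (ptgt W) ((W i)[k]).2 ⟨i, ⟨k, hk⟩⟩ = ⟨i, ⟨k + 1, _⟩⟩ at this
    rw [this]
  have K2 : ∀ k (hk : k < n), iv (W i)[k] ≠ a →
      (A (iv (W i)[k]) = true ↔ c ⟨i, ⟨k, by omega⟩⟩ = true) := by
    intro k hk hne
    rw [hAf _ ⟨i, ⟨k, hk⟩⟩ hne rfl rfl]
    have := st_lt W ⟨i, ⟨k, hk⟩⟩
    change st (psrc W) (ptgt W) ((W i)[k]).2 ⟨i, ⟨k, hk⟩⟩ = ⟨i, ⟨k, _⟩⟩ at this
    have e : en (psrc W) (ptgt W) (iv (W i)[k]).2 ⟨i, ⟨k, hk⟩⟩ =
        st (psrc W) (ptgt W) ((W i)[k]).2 ⟨i, ⟨k, hk⟩⟩ := en_not _ _ _ _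
    rw [e, this]
  have K2' : ∀ k (hk : k < n), iv (L[k + 1]'(by omega)) ≠ a →
      (A (iv (L[k + 1]'(by omega))) = true ↔ c ⟨i, ⟨k + 1, by omega⟩⟩ = true) := by
    intro k hk
    rcases Nat.lt_or_ge (k + 1) n with hk1 | hk1
    · rw [hLk (k + 1) hk1]
      exact K2 (k + 1) hk1
    · have hkn : k + 1 = n := by omega
      have e : L[k + 1]'(by omega) = (W i)[0]'(by omega) := by
        rw [← hLn']
        congr 1
      rw [e]
      intro hne
      rw [K2 0 (by omega) hne, ← h0]
      have e2 : (⟨i, ⟨n, by omega⟩⟩ : PV W) = ⟨i, ⟨k + 1, by omega⟩⟩ := by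
        congr 1
        exact Fin.ext hkn.symm
      rw [e2]
  have K1' : ∀ k (hk : k < n), L[k]'(by omega) ≠ a →
      (A (L[k]'(by omega)) = true ↔ c ⟨i, ⟨k + 1, by omega⟩⟩ = true) := by
    intro k hk
    rw [hLk k hk]
    exact K1 k hk
  rw [List.isChain_iff_getElem] at hw
  have hinf : ∀ k (hk : k < n), [L[k]'(by omega), L[k + 1]'(by omega)] <:+: L := by
    intro k hk
    refine ⟨L.take k, L.drop (k + 2), ?_⟩
    have e1 : L.drop k = L[k]'(by omega) :: L.drop (k + 1) := List.drop_eq_getElem_cons (by omega)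
    have e2 : L.drop (k + 1) = L[k + 1]'(by omega) :: L.drop (k + 2) :=
      List.drop_eq_getElem_cons (by omega)
    have e3 : L.take k ++ L.drop k = L := List.take_append_drop k L
    rw [e1, e2] at e3
    rw [List.append_assoc]
    exact e3
  refine ⟨a, A, ?_, ?_, ?_, ?_⟩
  · simp [A]
  · rw [← Bool.not_eq_true, hA]
    rintro ⟨_, f, hf, hl, hc⟩
    have h3 := P2 f hf hl
    have e : en (psrc W) (ptgt W) (iv a).2 f = st (psrc W) (ptgt W) a.2 f := en_not _ _ _ _
    rw [e, h3] at hc
    exact absurd hc (by simp)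
  · rw [List.isChain_iff_getElem]
    intro k hk
    have hk' : k < n := by omega
    constructor
    · intro hAp
      have hne : L[k] ≠ a := ((hA _).mp hAp).1
      have h3 := (K1' k hk' hne).mp hAp
      by_cases h4 : iv (L[k + 1]) = a
      · right
        rw [← h4, iv_iv]
      · left
        exact (K2' k hk' h4).mpr h3
    · intro hAq
      have hne : iv (L[k + 1]) ≠ a := ((hA _).mp hAq).1
      have h3 := (K2' k hk' hne).mp hAq
      by_cases h4 : L[k] = a
      · right; exact h4
      · left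
        exact (K1' k hk' h4).mpr h3
  · obtain ⟨⟨j, k, hk⟩, hj, hl, hc⟩ := P3
    change j = i at hj
    subst hj
    have hk' : k < n := hk
    by_cases hb : ((W j)[k]).2 = a.2
    · have ha : (W j)[k] = a := Prod.ext hl hb
      have hpa : L[k]'(by omega) = a := by rw [hLk k hk', ha]
      refine ⟨L[k]'(by omega), L[k + 1]'(by omega), hinf k hk', Or.inl ⟨hpa, ?_⟩⟩
      have hne : iv (L[k + 1]'(by omega)) ≠ a := by
        intro h
        apply hw k (by omega)
        rw [hpa, ← h, iv_iv]
      rw [K2' k hk' hne]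
      have := en_lt W ⟨j, ⟨k, hk⟩⟩
      change en (psrc W) (ptgt W) ((W j)[k]).2 ⟨j, ⟨k, hk⟩⟩ = ⟨j, ⟨k + 1, _⟩⟩ at this
      rw [hb] at this
      rw [this] at hc
      exact hc
    · have hb' : ((W j)[k]).2 = !a.2 := by
        revert hb
        cases ((W j)[k]).2 <;> cases a.2 <;> simp
      have ha : (W j)[k] = iv a := Prod.ext hl hb'
      have hcol : c ⟨j, ⟨k, by omega⟩⟩ = true := by
        have := st_lt W ⟨j, ⟨k, hk⟩⟩
        change st (psrc W) (ptgt W) ((W j)[k]).2 ⟨j, ⟨k, hk⟩⟩ = ⟨j, ⟨k, _⟩⟩ at this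
        rw [hb', ← en_not, Bool.not_not] at this
        rw [this] at hc
        exact hc
      have main : ∀ m (hm : m < n), L[m + 1]'(by omega) = iv a →
          c ⟨j, ⟨m + 1, by omega⟩⟩ = true → ∃ p q, [p, q] <:+: L ∧
          ((p = a ∧ A (iv q) = true) ∨ (q = iv a ∧ A p = true)) := by
        intro m hm hqa hcm
        refine ⟨L[m]'(by omega), L[m + 1]'(by omega), hinf m hm, Or.inr ⟨hqa, ?_⟩⟩
        have hne : L[m]'(by omega) ≠ a := by
          intro h
          apply hw m (by omega)
          rw [hqa, h]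
        exact (K1' m hm hne).mpr hcm
      rcases Nat.eq_zero_or_pos k with hk0 | hk0
      · subst hk0
        apply main (n - 1) (by omega)
        · have e : L[n - 1 + 1]'(by omega) = (W j)[0]'(by omega) := by
            rw [← hLn']
            congr 1
            omega
          rw [e, ha]
        · rw [← hcol, ← h0]
          congr 1
          congr 1
          exact Fin.ext (by simp only; omega)
      · obtain ⟨m, rfl⟩ : ∃ m, k = m + 1 := ⟨k - 1, by omega⟩
        apply main m (by omega)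
        · rw [hLk (m + 1) hk', ha]
        · exact hcol

end Final

/-- Whitehead's cut vertex lemma for one cyclically reduced primitive word `w` of length `≥ 2`.
(`w ++ w.take 1` is the cyclic word written out, its consecutive pairs are the cyclically adjacent
pairs of letters.) -/
theorem cut_vertex (w : List (Lt r)) (h2 : 2 ≤ w.length)
    (hw : List.IsChain (fun p q => q ≠ iv p) (w ++ w.take 1)) (hp : Prim (FreeGroup.mk w)) :
    ∃ (a : Lt r) (A : Lt r → Bool), A a = false ∧ A (iv a) = false ∧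
      List.IsChain (fun p q => (A p = true → A (iv q) = true ∨ q = iv a) ∧
        (A (iv q) = true → A p = true ∨ p = a)) (w ++ w.take 1) ∧
      ∃ p q, [p, q] <:+: (w ++ w.take 1) ∧
        ((p = a ∧ A (iv q) = true) ∨ (q = iv a ∧ A p = true)) := by
  classical
  obtain ⟨φ, i, hφ⟩ := hp
  let W : Fin r → List (Lt r) := fun j => if j = i then w else (φ (FreeGroup.of j)).toWord
  have hWi : W i = w := if_pos rfl
  have hWφ : ∀ j, φ (FreeGroup.of j) = FreeGroup.mk (W j) := by
    intro j
    by_cases h : j = i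
    · subst h
      rw [hWi, hφ]
    · simp only [W, if_neg h]
      rw [FreeGroup.mk_toWord]
  rw [← hWi] at h2 hw ⊢
  obtain ⟨c, a, h0, P1, P2, P3⟩ := petal_main W φ hWφ i h2
  exact final_word W i h2 hw c a h0 P1 P2 P3

end Pool.Agent.Helper385.Blk.CV
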