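import Pool.Agent.Helper385.BlkDefs

set_option autoImplicit false

namespace Pool.Agent.Helper385.Blk.Comp

variable {r : ℕ}







namespace Aux

/-- number of graphs -/
noncomputable def M (r : ℕ) : ℕ := Fintype.card (Lt r → Lt r → Bool)

/-- number of moves -/
noncomputable def M' (r : ℕ) : ℕ := Fintype.card (Lt r × (Lt r → Bool))

noncomputable def eG : (Lt r → Lt r → Bool) ≃ Fin (M r) := Fintype.equivFin _

noncomputable def eT : (Lt r × (Lt r → Bool)) ≃ Fin (M' r) := Fintype.equivFin _

/-- states -/
abbrev St (r : ℕ) := Fin (M r) × List (Lt r)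

/-- rules -/
abbrev Rl (r : ℕ) := Fin (M r) × Fin (M' r) × Fin (M r)

def Good (H : Lt r → Lt r → Bool) : Prop := ∀ p q, H p q = true → q ≠ iv p

open Classical in
noncomputable def rules (r : ℕ) : List (Rl r) :=
  (Finset.univ.filter (fun ρ : Rl r =>
    (eT.symm ρ.2.1).2 (eT.symm ρ.2.1).1 = false ∧
    (eT.symm ρ.2.1).2 (iv (eT.symm ρ.2.1).1) = false ∧ Good (eG.symm ρ.1) ∧
    ρ.2.2 = eG (D (eT.symm ρ.2.1).1 (eT.symm ρ.2.1).2 (eG.symm ρ.1)))).toList

open Classical in
noncomputable def bases (r : ℕ) : List (Fin (M r) × Lt r) :=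
  (Finset.univ.filter (fun b : Fin (M r) × Lt r =>
    Good (eG.symm b.1) ∧ (eG.symm b.1) b.2 b.2 = true)).toList

/-- insertion code -/
noncomputable def insC (t : Fin (M' r) × Lt r × Lt r) : List (Lt r) :=
  ins (eT.symm t.1).1 (eT.symm t.1).2 t.2.1 t.2.2

noncomputable def InsF (t : Fin (M' r) × List (Lt r)) : List (Lt r) :=
  t.2.foldr (fun y acc => y :: ((acc.head?.elim [] (fun z => insC (t.1, y, z))) ++ acc)) []

theorem Ins_head? (a : Lt r) (A : Lt r → Bool) (l : List (Lt r)) :
    (Ins a A l).head? = l.head? := by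
  cases l with
  | nil => rfl
  | cons y t => simp [Ins]

theorem InsF_eq (θ : Fin (M' r)) (l : List (Lt r)) :
    InsF (θ, l) = Ins (eT.symm θ).1 (eT.symm θ).2 l := by
  induction l with
  | nil => rfl
  | cons y t ih =>
    have h1 : InsF (θ, y :: t) =
        y :: (((InsF (θ, t)).head?.elim [] (fun z => insC (θ, y, z))) ++ InsF (θ, t)) := rfl
    rw [h1, ih, Ins_head?]
    cases t with
    | nil => rfl
    | cons z s => rfl

def infixes (l : List (Lt r)) : List (List (Lt r)) :=
  (List.range (l.length + 1)).flatMap fun i =>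
    (List.range (l.length + 1)).map fun j => (l.drop i).take j

theorem mem_infixes (u l : List (Lt r)) : u ∈ infixes l ↔ u <:+: l := by
  unfold infixes
  simp only [List.mem_flatMap, List.mem_range, List.mem_map]
  constructor
  · rintro ⟨i, _, j, _, rfl⟩
    exact (List.take_prefix _ _).isInfix.trans (List.drop_suffix _ _).isInfix
  · rintro ⟨s, t, rfl⟩
    refine ⟨s.length, by simp, u.length, by simp; omega, ?_⟩
    simp [List.append_assoc]

noncomputable def baseL (N : ℕ) : List (St r) :=
  (bases r).flatMap fun b => (List.range (N + 1)).map fun k =>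
    (b.1, (List.range k).map (fun _ => b.2))

noncomputable def stepL (N : ℕ) (T : List (St r)) : List (St r) :=
  baseL N ++ (rules r).flatMap fun ρ => T.flatMap fun s =>
    (infixes (InsF (ρ.2.1, s.2))).filterMap fun u =>
      if s.1 = ρ.2.2 ∧ u.length ≤ N then some (ρ.1, u) else none

theorem mem_baseL (N : ℕ) (h : Fin (M r)) (u : List (Lt r)) :
    (h, u) ∈ baseL N ↔ ∃ x k, Good (eG.symm h) ∧ (eG.symm h) x x = true ∧ k ≤ N ∧
      u = List.replicate k x := by
  unfold baseL bases
  simp only [List.mem_flatMap, Finset.mem_toList, Finset.mem_filter, Finset.mem_univ, true_and,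
    List.mem_map, List.mem_range, Prod.mk.injEq]
  constructor
  · rintro ⟨⟨h', x⟩, ⟨h1, h2⟩, k, hk, rfl, rfl⟩
    exact ⟨x, k, h1, h2, by omega, by simp⟩
  · rintro ⟨x, k, h1, h2, hk, rfl⟩
    exact ⟨(h, x), ⟨h1, h2⟩, k, by omega, rfl, by simp⟩

theorem mem_stepL (N : ℕ) (T : List (St r)) (h : Fin (M r)) (u : List (Lt r)) :
    (h, u) ∈ stepL N T ↔ (h, u) ∈ baseL N ∨
      ∃ (a : Lt r) (A : Lt r → Bool) (u' : List (Lt r)), A a = false ∧ A (iv a) = false ∧
        Good (eG.symm h) ∧ (eG (D a A (eG.symm h)), u') ∈ T ∧ u <:+: Ins a A u' ∧ u.length ≤ N := by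
  unfold stepL
  rw [List.mem_append]
  refine or_congr Iff.rfl ?_
  simp only [List.mem_flatMap, List.mem_filterMap, rules, Finset.mem_toList, Finset.mem_filter,
    Finset.mem_univ, true_and]
  constructor
  · rintro ⟨⟨h', θ, h''⟩, ⟨h1, h2, h3, h4⟩, ⟨g, u'⟩, hs, v, hv, hif⟩
    split_ifs at hif with hc
    simp only [Option.some.injEq, Prod.mk.injEq] at hif
    obtain ⟨rfl, rfl⟩ := hif
    simp only at h1 h2 h3 h4 hc hs hv
    rw [mem_infixes, InsF_eq] at hv
    obtain ⟨rfl, hl⟩ := hc
    subst h4
    exact ⟨_, _, u', h1, h2, h3, hs, hv, hl⟩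
  · rintro ⟨a, A, u', h1, h2, h3, h4, h5, h6⟩
    refine ⟨(h, eT (a, A), eG (D a A (eG.symm h))), ?_, (_, u'), h4, u, ?_, ?_⟩
    · simp [h1, h2, h3]
    · rw [mem_infixes, InsF_eq]; simpa using h5
    · simp [h6]

/-! ### primitive recursiveness -/

theorem insC_prim : Primrec (insC : Fin (M' r) × Lt r × Lt r → List (Lt r)) :=
  Primrec.dom_finite _

theorem InsF_prim : Primrec (InsF : Fin (M' r) × List (Lt r) → List (Lt r)) := by
  unfold InsF
  refine Primrec.list_foldr (α := Fin (M' r) × List (Lt r)) (β := Lt r) (σ := List (Lt r))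
    (f := fun t => t.2) (g := fun _ => [])
    (h := fun t p => p.1 :: ((p.2.head?.elim [] (fun z => insC (t.1, p.1, z))) ++ p.2))
    Primrec.snd (Primrec.const []) ?_
  -- h : α → β × σ → σ
  have hy : Primrec (fun p : (Fin (M' r) × List (Lt r)) × (Lt r × List (Lt r)) => p.2.1) :=
    Primrec.fst.comp Primrec.snd
  have hacc : Primrec (fun p : (Fin (M' r) × List (Lt r)) × (Lt r × List (Lt r)) => p.2.2) :=
    Primrec.snd.comp Primrec.snd
  have hθ : Primrec (fun p : (Fin (M' r) × List (Lt r)) × (Lt r × List (Lt r)) => p.1.1) :=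
    Primrec.fst.comp Primrec.fst
  have h1 : Primrec (fun p : (Fin (M' r) × List (Lt r)) × (Lt r × List (Lt r)) =>
      (p.2.2.head?.elim [] (fun z => insC (p.1.1, p.2.1, z)) : List (Lt r))) := by
    have h2 : Primrec (fun p : (Fin (M' r) × List (Lt r)) × (Lt r × List (Lt r)) =>
        (Option.casesOn p.2.2.head? [] (fun z => insC (p.1.1, p.2.1, z)) : List (Lt r))) := by
      refine Primrec.option_casesOn (Primrec.list_head?.comp hacc) (Primrec.const []) ?_
      refine insC_prim.comp ?_
      exact Primrec.pair (hθ.comp Primrec.fst) (Primrec.pair (hy.comp Primrec.fst) Primrec.snd)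
    refine h2.of_eq ?_
    intro p
    cases p.2.2.head? <;> rfl
  exact Primrec.list_cons.comp hy (Primrec.list_append.comp h1 hacc)

theorem infixes_prim : Primrec (infixes : List (Lt r) → List (List (Lt r))) := by
  unfold infixes
  refine Primrec.list_flatMap
    (Primrec.list_range.comp (Primrec.succ.comp Primrec.list_length)) ?_
  refine Primrec.list_map
    (Primrec.list_range.comp (Primrec.succ.comp (Primrec.list_length.comp Primrec.fst))) ?_
  exact Primrec.list_take.comp Primrec.snd
    (Primrec.list_drop.comp (Primrec.snd.comp Primrec.fst) (Primrec.fst.comp Primrec.fst))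

theorem baseL_prim : Primrec (baseL : ℕ → List (St r)) := by
  unfold baseL
  refine Primrec.list_flatMap (Primrec.const _) ?_
  refine Primrec.list_map (Primrec.list_range.comp (Primrec.succ.comp Primrec.fst)) ?_
  refine Primrec.pair (Primrec.fst.comp (Primrec.snd.comp Primrec.fst)) ?_
  refine Primrec.list_map (Primrec.list_range.comp Primrec.snd) ?_
  exact Primrec.snd.comp (Primrec.snd.comp (Primrec.fst.comp Primrec.fst))

theorem stepL_prim : Primrec₂ (stepL : ℕ → List (St r) → List (St r)) := by
  unfold stepL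
  refine Primrec.list_append.comp (baseL_prim.comp Primrec.fst) ?_
  refine Primrec.list_flatMap (Primrec.const _) ?_
  refine Primrec.list_flatMap (Primrec.snd.comp Primrec.fst) ?_
  refine Primrec.listFilterMap ?_ ?_
  · refine infixes_prim.comp (InsF_prim.comp ?_)
    exact Primrec.pair
      (Primrec.fst.comp (Primrec.snd.comp (Primrec.snd.comp Primrec.fst)))
      (Primrec.snd.comp Primrec.snd)
  · refine Primrec.ite ?_ ?_ (Primrec.const none)
    · refine PrimrecPred.and ?_ ?_
      · exact Primrec.eq.comp (Primrec.fst.comp (Primrec.snd.comp Primrec.fst))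
          (Primrec.snd.comp (Primrec.snd.comp (Primrec.snd.comp (Primrec.fst.comp Primrec.fst))))
      · exact Primrec.nat_le.comp (Primrec.list_length.comp Primrec.snd)
          (Primrec.fst.comp (Primrec.fst.comp (Primrec.fst.comp Primrec.fst)))
    · refine Primrec.option_some.comp (Primrec.pair ?_ Primrec.snd)
      exact Primrec.fst.comp (Primrec.snd.comp (Primrec.fst.comp Primrec.fst))

/-- existential quantification of a decidable predicate -/
theorem re_exists {α β : Type} [Primcodable α] [Primcodable β] (p : α → β → Bool)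
    (hp : Primrec₂ p) : REPred (fun a => ∃ b, p a b = true) := by
  have h1 : Partrec (fun a : α => (Nat.rfind fun n =>
      Part.some ((Encodable.decode (α := β) n).elim false (fun b => p a b)))) := by
    refine Partrec.rfind ?_
    refine Primrec.to_comp ?_ |>.partrec
    have h2 : Primrec (fun q : α × ℕ => (Option.casesOn (Encodable.decode (α := β) q.2) false
        (fun b => p q.1 b) : Bool)) := by
      refine Primrec.option_casesOn (Primrec.decode.comp Primrec.snd) (Primrec.const false) ?_
      exact hp.comp (Primrec.fst.comp Primrec.fst) Primrec.snd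
    refine h2.of_eq ?_
    intro q
    cases (Encodable.decode (α := β) q.2) <;> rfl
  refine (Partrec.dom_re h1).of_eq ?_
  intro a
  refine Iff.trans Nat.rfind_dom ?_
  constructor
  · rintro ⟨n, hn, _⟩
    simp only [Part.mem_some_iff] at hn
    cases h : (Encodable.decode (α := β) n) with
    | none => rw [h] at hn; simp at hn
    | some b => rw [h] at hn; exact ⟨b, by simpa using hn.symm⟩
  · rintro ⟨b, hb⟩
    refine ⟨Encodable.encode b, ?_, fun _ => trivial⟩
    simp [Encodable.encodek, hb]

end Aux

open Aux

/-- A set `R` of states (directed graph `H` on the letters, word `u`) which contains the base states, is closed under the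
steps, and is contained in every N-closed set as far as words of length `≤ N` are concerned, gives a decidable
predicate `R H0`. -/
theorem computable_of_closure (R : (Lt r → Lt r → Bool) → List (Lt r) → Prop)
    (hb : ∀ (H : Lt r → Lt r → Bool) (x : Lt r) (k : ℕ), (∀ p q, H p q = true → q ≠ iv p) →
      H x x = true → R H (List.replicate k x))
    (hs : ∀ (a : Lt r) (A : Lt r → Bool) (H : Lt r → Lt r → Bool) (u u' : List (Lt r)),
      A a = false → A (iv a) = false → (∀ p q, H p q = true → q ≠ iv p) →
      R (D a A H) u' → u <:+: Ins a A u' → R H u)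
    (hc : ∀ (N : ℕ) (T : (Lt r → Lt r → Bool) → List (Lt r) → Prop), 2 ≤ N →
      (∀ (H : Lt r → Lt r → Bool) (x : Lt r) (k : ℕ), (∀ p q, H p q = true → q ≠ iv p) →
        H x x = true → k ≤ N → T H (List.replicate k x)) →
      (∀ (a : Lt r) (A : Lt r → Bool) (H : Lt r → Lt r → Bool) (u u' : List (Lt r)),
        A a = false → A (iv a) = false → (∀ p q, H p q = true → q ≠ iv p) →
        T (D a A H) u' → u <:+: Ins a A u' → u.length ≤ N → T H u) →
      ∀ (H : Lt r → Lt r → Bool) (u : List (Lt r)), (∀ p q, H p q = true → q ≠ iv p) →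
        u.length ≤ N → R H u → T H u) :
    ComputablePred (fun v : List (Lt r) => ¬ R H0 v) := by
  classical
  have hgood0 : ∀ p q : Lt r, H0 p q = true → q ≠ iv p := by
    intro p q h
    simpa [H0] using h
  -- soundness of the iteration
  have hsound : ∀ N n (s : St r), s ∈ (stepL N)^[n] [] → R (eG.symm s.1) s.2 := by
    intro N n
    induction n with
    | zero => intro s hs'; simp at hs'
    | succ n ih =>
      rintro ⟨h, u⟩ hs'
      rw [Function.iterate_succ_apply', mem_stepL] at hs'
      rcases hs' with hs' | ⟨a, A, u', h1, h2, h3, h4, h5, _⟩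
      · rw [mem_baseL] at hs'
        obtain ⟨x, k, h1, h2, _, rfl⟩ := hs'
        exact hb _ x k h1 h2
      · refine hs a A _ u u' h1 h2 h3 ?_ h5
        have := ih _ h4
        simpa using this
  have hNeq : ∀ v : List (Lt r), R H0 v ↔
      ∃ n, (eG H0, v) ∈ (stepL (max v.length 2))^[n] [] := by
    intro v
    constructor
    · intro hR
      refine hc (max v.length 2) (fun H u => ∃ n, (eG H, u) ∈ (stepL (max v.length 2))^[n] [])
        (le_max_right _ _) ?_ ?_ H0 v hgood0 (le_max_left _ _) hR
      · intro H x k h1 h2 h3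
        refine ⟨1, ?_⟩
        rw [Function.iterate_one, mem_stepL, mem_baseL]
        left
        refine ⟨x, k, ?_, ?_, h3, rfl⟩
        · simpa [Good] using h1
        · simpa using h2
      · rintro a A H u u' h1 h2 h3 ⟨n, hn⟩ h5 h6
        refine ⟨n + 1, ?_⟩
        rw [Function.iterate_succ_apply', mem_stepL]
        right
        refine ⟨a, A, u', h1, h2, ?_, ?_, h5, h6⟩
        · simpa [Good] using h3
        · simpa using hn
    · rintro ⟨n, hn⟩
      simpa using hsound _ n _ hn
  have hcompl : ∀ v : List (Lt r), ¬ R H0 v ↔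
      ∃ T : List (St r), (∀ s ∈ stepL (max v.length 2) T, s ∈ T) ∧ (eG H0, v) ∉ T := by
    intro v
    constructor
    · intro hR
      have hfin : {s : St r | s.2.length ≤ max v.length 2 ∧ R (eG.symm s.1) s.2}.Finite := by
        have h1 : {s : St r | s.2.length ≤ max v.length 2}.Finite := by
          have h2 := (Set.finite_univ (α := Fin (M r))).prod
            (List.finite_length_le (Lt r) (max v.length 2))
          refine h2.subset ?_
          intro s hs'
          exact ⟨Set.mem_univ _, hs'⟩
        exact h1.subset fun s hs' => hs'.1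
      refine ⟨hfin.toFinset.toList, ?_, ?_⟩
      · rintro ⟨h, u⟩ hs'
        rw [mem_stepL] at hs'
        simp only [Finset.mem_toList, Set.Finite.mem_toFinset, Set.mem_ofPred_eq] at hs' ⊢
        rcases hs' with hs' | ⟨a, A, u', h1, h2, h3, h4, h5, h6⟩
        · rw [mem_baseL] at hs'
          obtain ⟨x, k, h1, h2, h3, rfl⟩ := hs'
          refine ⟨by simpa using h3, hb _ x k h1 h2⟩
        · refine ⟨h6, hs a A _ u u' h1 h2 h3 ?_ h5⟩
          simpa using h4.2
      · simp only [Finset.mem_toList, Set.Finite.mem_toFinset, Set.mem_ofPred_eq]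
        rintro ⟨_, h⟩
        exact hR (by simpa using h)
    · rintro ⟨T, hT, hv⟩ hR
      apply hv
      have := hc (max v.length 2) (fun H u => (eG H, u) ∈ T) (le_max_right _ _) ?_ ?_ H0 v hgood0
        (le_max_left _ _) hR
      · exact this
      · intro H x k h1 h2 h3
        apply hT
        rw [mem_stepL, mem_baseL]
        left
        refine ⟨x, k, ?_, ?_, h3, rfl⟩
        · simpa [Good] using h1
        · simpa using h2
      · intro a A H u u' h1 h2 h3 h4 h5 h6
        apply hT
        rw [mem_stepL]
        right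
        refine ⟨a, A, u', h1, h2, ?_, ?_, h5, h6⟩
        · simpa [Good] using h3
        · simpa using h4
  have hmaxp : Primrec (fun v : List (Lt r) => max v.length 2) :=
    Primrec.nat_max.comp Primrec.list_length (Primrec.const 2)
  have hmem : PrimrecRel (fun (L : List (St r)) (s : St r) => ∃ a ∈ L, a = s) :=
    PrimrecRel.exists_mem_list Primrec.eq
  -- first r.e. predicate
  have re1 : REPred (fun v : List (Lt r) => R H0 v) := by
    have hp : Primrec₂ (fun (v : List (Lt r)) (n : ℕ) =>
        decide (∃ a ∈ (stepL (max v.length 2))^[n] [], a = (eG H0, v))) := by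
      have h1 : Primrec₂ (fun (v : List (Lt r)) (n : ℕ) =>
          (stepL (max v.length 2))^[n] ([] : List (St r))) := by
        refine Primrec.nat_iterate Primrec.snd (Primrec.const []) ?_
        exact stepL_prim.comp (hmaxp.comp (Primrec.fst.comp Primrec.fst)) Primrec.snd
      have h2 : PrimrecPred (fun q : List (Lt r) × ℕ =>
          ∃ a ∈ (stepL (max q.1.length 2))^[q.2] ([] : List (St r)), a = (eG H0, q.1)) :=
        PrimrecRel.comp hmem h1 (Primrec.pair (Primrec.const _) Primrec.fst)
      exact h2.decide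
    refine (re_exists _ hp).of_eq ?_
    intro v
    rw [hNeq]
    simp
  have re2 : REPred (fun v : List (Lt r) => ¬ R H0 v) := by
    have hp : Primrec₂ (fun (v : List (Lt r)) (T : List (St r)) =>
        decide ((∀ s ∈ stepL (max v.length 2) T, ∃ a ∈ T, a = s) ∧
          ¬ ∃ a ∈ T, a = (eG H0, v))) := by
      have h1 : PrimrecPred (fun q : List (Lt r) × List (St r) =>
          ∀ s ∈ stepL (max q.1.length 2) q.2, ∃ a ∈ q.2, a = s) := by
        have h3 : PrimrecRel (fun (L : List (St r)) (T : List (St r)) =>
            ∀ s ∈ L, ∃ a ∈ T, a = s) := by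
          have h4 : PrimrecRel (fun (s : St r) (T : List (St r)) => ∃ a ∈ T, a = s) :=
            PrimrecRel.comp hmem Primrec.snd Primrec.fst
          exact PrimrecRel.forall_mem_list h4
        exact PrimrecRel.comp h3 (stepL_prim.comp (hmaxp.comp Primrec.fst) Primrec.snd)
          Primrec.snd
      have h2 : PrimrecPred (fun q : List (Lt r) × List (St r) =>
          ¬ ∃ a ∈ q.2, a = (eG H0, q.1)) :=
        (PrimrecRel.comp hmem Primrec.snd (Primrec.pair (Primrec.const _) Primrec.fst)).not
      exact (h1.and h2).decide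
    refine (re_exists _ hp).of_eq ?_
    intro v
    rw [hcompl]
    simp
  rw [ComputablePred.computable_iff_re_compl_re]
  exact ⟨re2, by simpa using re1⟩

end Pool.Agent.Helper385.Blk.Comp
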