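import Pool.Agent.Helper385.BlkDefs

set_option autoImplicit false

namespace Pool.Agent.Helper385.Blk

variable {r : ℕ}

theorem iv_iv (y : Lt r) : iv (iv y) = y := by
  rcases y with ⟨i, b⟩
  simp [iv]

theorem iv_ne (y : Lt r) : iv y ≠ y := by
  rcases y with ⟨i, b⟩
  simp [iv]

/-! ### insertion -/

/-- insertion along a path followed by the letter `q`, without `q` itself -/
def J (a : Lt r) (A : Lt r → Bool) : List (Lt r) → Lt r → List (Lt r)
  | [], _ => []
  | y :: t, q => y :: (ins a A y (t.headD q) ++ J a A t q)

theorem J_nil (a : Lt r) (A : Lt r → Bool) (q : Lt r) : J a A [] q = [] := rfl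

theorem J_cons (a : Lt r) (A : Lt r → Bool) (y : Lt r) (t : List (Lt r)) (q : Lt r) :
    J a A (y :: t) q = y :: (ins a A y (t.headD q) ++ J a A t q) := rfl

theorem Ins_nil (a : Lt r) (A : Lt r → Bool) : Ins a A [] = [] := rfl

theorem Ins_one (a : Lt r) (A : Lt r → Bool) (y : Lt r) : Ins a A [y] = [y] := rfl

theorem Ins_cons (a : Lt r) (A : Lt r → Bool) (y z : Lt r) (t : List (Lt r)) :
    Ins a A (y :: z :: t) = y :: (ins a A y z ++ Ins a A (z :: t)) := rfl

theorem Ins_append (a : Lt r) (A : Lt r → Bool) (l : List (Lt r)) (q : Lt r) (m : List (Lt r)) :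
    Ins a A (l ++ q :: m) = J a A l q ++ Ins a A (q :: m) := by
  induction l with
  | nil => simp [J_nil]
  | cons y t ih =>
    cases t with
    | nil => simp [J_cons, J_nil, Ins_cons]
    | cons z t' =>
      have : (y :: z :: t') ++ q :: m = y :: z :: (t' ++ q :: m) := by simp
      rw [this, Ins_cons]
      have h2 : z :: (t' ++ q :: m) = (z :: t') ++ q :: m := by simp
      rw [h2, ih, J_cons a A y (z :: t') q]
      simp

theorem J_append (a : Lt r) (A : Lt r → Bool) (l : List (Lt r)) (x : Lt r) (m : List (Lt r))
    (q : Lt r) : J a A (l ++ x :: m) q = J a A l x ++ J a A (x :: m) q := by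
  induction l with
  | nil => simp [J_nil]
  | cons y t ih =>
    cases t with
    | nil => simp [J_cons, J_nil]
    | cons z t' =>
      have : (y :: z :: t') ++ x :: m = y :: ((z :: t') ++ x :: m) := by simp
      rw [this, J_cons, ih, J_cons a A y (z :: t') x]
      simp

theorem Ins_prefix_J (a : Lt r) (A : Lt r → Bool) (l : List (Lt r)) (q : Lt r) :
    Ins a A l <+: J a A l q := by
  induction l with
  | nil => simp [J_nil, Ins_nil]
  | cons y t ih =>
    cases t with
    | nil => simp [J_cons, J_nil, Ins_one]
    | cons z t' =>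
      rw [Ins_cons, J_cons]
      obtain ⟨s, hs⟩ := ih
      refine ⟨s, ?_⟩
      simp [← hs]

/-- `Ins` of an initial piece is an initial piece -/
theorem Ins_prefix (a : Lt r) (A : Lt r → Bool) (l m : List (Lt r)) :
    Ins a A l <+: Ins a A (l ++ m) := by
  cases m with
  | nil => simp
  | cons q m =>
    rw [Ins_append]
    exact (Ins_prefix_J a A l q).trans (List.prefix_append _ _)

theorem Ins_suffix (a : Lt r) (A : Lt r → Bool) (l m : List (Lt r)) :
    Ins a A m <:+ Ins a A (l ++ m) := by
  cases m with
  | nil => simp [Ins_nil]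
  | cons q m =>
    rw [Ins_append]
    exact List.suffix_append _ _

theorem Ins_infix (a : Lt r) (A : Lt r → Bool) {l m : List (Lt r)} (h : l <:+: m) :
    Ins a A l <:+: Ins a A m := by
  obtain ⟨s, t, rfl⟩ := h
  exact (Ins_suffix a A s l).isInfix.trans (Ins_prefix a A (s ++ l) t).isInfix

theorem length_Ins (a : Lt r) (A : Lt r → Bool) (l : List (Lt r)) :
    l.length ≤ (Ins a A l).length := by
  induction l with
  | nil => simp [Ins_nil]
  | cons y t ih =>
    cases t with
    | nil => simp [Ins_one]
    | cons z t' =>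
      rw [Ins_cons]
      simp only [List.length_cons, List.length_append] at ih ⊢
      omega

theorem J_powers (a : Lt r) (A : Lt r → Bool) (c : Lt r) (t : List (Lt r)) (m : ℕ) :
    J a A ((List.replicate m (c :: t)).flatten) c
      = (List.replicate m (J a A (c :: t) c)).flatten := by
  induction m with
  | zero => simp [J_nil]
  | succ m ih =>
    rw [List.replicate_succ, List.replicate_succ, List.flatten_cons, List.flatten_cons, ← ih]
    cases m with
    | zero => simp [J_nil]
    | succ m =>
      rw [List.replicate_succ, List.flatten_cons]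
      exact J_append a A (c :: t) c _ c

theorem ins_length (a : Lt r) (A : Lt r → Bool) (p q : Lt r) :
    (ins a A p q).length ≤ 1 := by
  unfold ins
  split_ifs <;> simp

/-! ### paths -/

theorem isPath_Ins (a : Lt r) (A : Lt r → Bool) (H : Lt r → Lt r → Bool) (l : List (Lt r))
    (h : IsPath (D a A H) l) : IsPath H (Ins a A l) := by
  unfold IsPath at *
  induction l with
  | nil => simp [Ins_nil]
  | cons y t ih =>
    cases t with
    | nil => simp [Ins_one]
    | cons z t' =>
      rw [List.isChain_cons_cons] at h
      obtain ⟨h1, h2⟩ := h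
      have h3 := ih h2
      rw [Ins_cons]
      have h4 : ∃ s, Ins a A (z :: t') = z :: s := by
        cases t' with
        | nil => exact ⟨[], rfl⟩
        | cons x t'' => exact ⟨_, Ins_cons a A z x t''⟩
      obtain ⟨s, hs⟩ := h4
      rw [hs] at h3 ⊢
      unfold D at h1
      have h5 := ins_length a A y z
      rcases hi : ins a A y z with _ | ⟨x, _ | ⟨x', xs⟩⟩
      · rw [hi] at h1
        simp only [List.nil_append]
        rw [List.isChain_cons_cons]
        exact ⟨h1, h3⟩
      · rw [hi] at h1
        simp only [Bool.and_eq_true] at h1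
        simp only [List.cons_append, List.nil_append]
        rw [List.isChain_cons_cons, List.isChain_cons_cons]
        exact ⟨h1.1, h1.2, h3⟩
      · rw [hi] at h5
        simp at h5

/-- `H ≤ H0` -/
def Le0 (H : Lt r → Lt r → Bool) : Prop := ∀ p q, H p q = true → q ≠ iv p

theorem D_le0 (a : Lt r) (A : Lt r → Bool) (H : Lt r → Lt r → Bool) (hH : Le0 H) :
    Le0 (D a A H) := by
  intro p q h hq
  subst hq
  unfold D ins at h
  rw [iv_iv] at h
  cases hp : A p
  · simp [hp] at h
    exact hH _ _ h rfl
  · simp [hp] at h
    exact hH _ _ h rfl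

/-! ### cyclic chains -/

/-- cyclic chains -/
def CC (R : Lt r → Lt r → Prop) (w : List (Lt r)) : Prop := List.IsChain R (w ++ w.take 1)

theorem CC_cons (R : Lt r → Lt r → Prop) (c : Lt r) (t : List (Lt r)) :
    CC R (c :: t) ↔ List.IsChain R (c :: t ++ [c]) := by
  simp [CC]

theorem CC_rotate (R : Lt r → Lt r → Prop) (s t : List (Lt r)) (h : CC R (s ++ t)) :
    CC R (t ++ s) := by
  cases s with
  | nil => simpa using h
  | cons x s =>
    cases t with
    | nil => simpa using h
    | cons y t =>
      rw [List.cons_append, CC_cons] at h ⊢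
      have h1 : x :: (s ++ y :: t) ++ [x] = (x :: s) ++ y :: (t ++ [x]) := by simp
      rw [h1, List.isChain_split] at h
      have h2 : y :: (t ++ x :: s) ++ [y] = (y :: t) ++ x :: (s ++ [y]) := by simp
      rw [h2, List.isChain_split]
      simpa using And.symm h

theorem flatten_rotate (s t : List (Lt r)) (m : ℕ) :
    t ++ (List.replicate m (s ++ t)).flatten ++ s = (List.replicate (m + 1) (t ++ s)).flatten := by
  induction m with
  | zero => simp
  | succ m ih =>
    rw [List.replicate_succ (n := m + 1), List.flatten_cons, ← ih, List.replicate_succ,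
      List.flatten_cons]
    simp

/-! ### the automorphism -/

/-- `c` if `A y`, otherwise `1` -/
def E (c : FreeGroup (Fin r)) (A : Lt r → Bool) (y : Lt r) : FreeGroup (Fin r) :=
  if A y = true then c else 1

/-- the homomorphism `x ↦ E(x⁻¹) x E(x)⁻¹` -/
def S (c : FreeGroup (Fin r)) (A : Lt r → Bool) : FreeGroup (Fin r) →* FreeGroup (Fin r) :=
  FreeGroup.lift (fun i => E c A (i, false) * FreeGroup.of i * (E c A (i, true))⁻¹)

theorem S_letter (c : FreeGroup (Fin r)) (A : Lt r → Bool) (y : Lt r) :
    S c A (FreeGroup.mk [y]) = E c A (iv y) * FreeGroup.mk [y] * (E c A y)⁻¹ := by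
  rcases y with ⟨i, b⟩
  cases b
  · have h : (FreeGroup.mk [(i, false)] : FreeGroup (Fin r)) = (FreeGroup.of i)⁻¹ := by
      simp [FreeGroup.of, FreeGroup.inv_mk, FreeGroup.invRev]
    rw [h, map_inv]
    simp [S, FreeGroup.lift_apply_of, iv, mul_assoc]
  · have h : (FreeGroup.mk [(i, true)] : FreeGroup (Fin r)) = FreeGroup.of i := rfl
    rw [h]
    simp [S, FreeGroup.lift_apply_of, iv]

theorem mk_iv (a : Lt r) : (FreeGroup.mk [iv a] : FreeGroup (Fin r)) = (FreeGroup.mk [a])⁻¹ := by
  simp [FreeGroup.inv_mk, FreeGroup.invRev, iv]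

theorem S_a (c : FreeGroup (Fin r)) (A : Lt r → Bool) (a : Lt r) (hA : A a = false)
    (hA' : A (iv a) = false) : S c A (FreeGroup.mk [a]) = FreeGroup.mk [a] := by
  rw [S_letter]
  simp [E, hA, hA']

theorem E_inv (c : FreeGroup (Fin r)) (A : Lt r → Bool) (y : Lt r) :
    E c⁻¹ A y = (E c A y)⁻¹ := by
  unfold E
  split_ifs <;> simp

theorem S_S (c : FreeGroup (Fin r)) (A : Lt r → Bool) (hc : S c A c = c) :
    (S c A).comp (S c⁻¹ A) = MonoidHom.id _ := by
  apply FreeGroup.ext_hom
  intro i
  have h1 : S c⁻¹ A (FreeGroup.of i)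
      = (E c A (i, false))⁻¹ * FreeGroup.of i * E c A (i, true) := by
    simp [S, FreeGroup.lift_apply_of, E_inv]
  have hE : ∀ y, S c A (E c A y) = E c A y := by
    intro y
    unfold E
    split_ifs
    · exact hc
    · simp
  have h2 : S c A (FreeGroup.of i) = E c A (i, false) * FreeGroup.of i * (E c A (i, true))⁻¹ := by
    simp [S, FreeGroup.lift_apply_of]
  simp only [MonoidHom.comp_apply, MonoidHom.id_apply, h1, map_mul, map_inv, hE, h2]
  group

/-- the automorphism -/
def SA (a : Lt r) (A : Lt r → Bool) (hA : A a = false) (hA' : A (iv a) = false) :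
    MulAut (FreeGroup (Fin r)) :=
  MonoidHom.toMulEquiv (S (FreeGroup.mk [a]) A) (S (FreeGroup.mk [a])⁻¹ A)
    (by
      have h := S_S (FreeGroup.mk [a])⁻¹ A (by rw [map_inv, S_a _ A a hA hA'])
      rwa [inv_inv] at h)
    (S_S (FreeGroup.mk [a]) A (S_a _ A a hA hA'))

theorem SA_apply (a : Lt r) (A : Lt r → Bool) (hA : A a = false) (hA' : A (iv a) = false)
    (x : FreeGroup (Fin r)) : SA a A hA hA' x = S (FreeGroup.mk [a]) A x := rfl

theorem mk_ins (a : Lt r) (A : Lt r → Bool) (p q : Lt r) :
    (FreeGroup.mk (ins a A p q) : FreeGroup (Fin r))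
      = (E (FreeGroup.mk [a]) A p)⁻¹ * E (FreeGroup.mk [a]) A (iv q) := by
  unfold ins E
  cases hp : A p <;> cases hq : A (iv q)
  · simp [FreeGroup.one_eq_mk]
  · simp
  · simp [mk_iv]
  · have h : (FreeGroup.mk [] : FreeGroup (Fin r)) = 1 := rfl
    simp only [and_false, if_true, if_false, Bool.true_eq_false, false_and,
      inv_mul_cancel, h]

theorem mk_J (a : Lt r) (A : Lt r → Bool) (l : List (Lt r)) (q : Lt r) :
    (FreeGroup.mk (J a A l q) : FreeGroup (Fin r))
      = (E (FreeGroup.mk [a]) A (iv (l.headD q)))⁻¹ * S (FreeGroup.mk [a]) A (FreeGroup.mk l)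
        * E (FreeGroup.mk [a]) A (iv q) := by
  induction l with
  | nil =>
    have : (FreeGroup.mk [] : FreeGroup (Fin r)) = 1 := rfl
    simp [J_nil, this]
  | cons y t ih =>
    have h1 : (FreeGroup.mk (y :: t) : FreeGroup (Fin r)) = FreeGroup.mk [y] * FreeGroup.mk t := by
      simp [FreeGroup.mul_mk]
    have h2 : (FreeGroup.mk (y :: (ins a A y (t.headD q) ++ J a A t q)) : FreeGroup (Fin r))
        = FreeGroup.mk [y] * (FreeGroup.mk (ins a A y (t.headD q)) * FreeGroup.mk (J a A t q)) := by
      simp [FreeGroup.mul_mk]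
    rw [J_cons, h2, ih, mk_ins, h1, map_mul, S_letter]
    simp only [List.headD_cons]
    group

theorem prim_conj (g h : FreeGroup (Fin r)) : Prim (h⁻¹ * g * h) ↔ Prim g := by
  constructor
  · rintro ⟨φ, i, hφ⟩
    refine ⟨MulAut.conj h * φ, i, ?_⟩
    rw [MulAut.mul_apply, hφ, MulAut.conj_apply]
    group
  · rintro ⟨φ, i, hφ⟩
    refine ⟨MulAut.conj h⁻¹ * φ, i, ?_⟩
    rw [MulAut.mul_apply, hφ, MulAut.conj_apply]
    group

theorem prim_aut (ψ : MulAut (FreeGroup (Fin r))) (g : FreeGroup (Fin r)) :
    Prim (ψ g) ↔ Prim g := by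
  constructor
  · rintro ⟨φ, i, hφ⟩
    refine ⟨ψ⁻¹ * φ, i, ?_⟩
    rw [MulAut.mul_apply, hφ, MulAut.inv_apply_self]
  · rintro ⟨φ, i, hφ⟩
    refine ⟨ψ * φ, i, ?_⟩
    rw [MulAut.mul_apply, hφ]

theorem prim_J (a : Lt r) (A : Lt r → Bool) (hA : A a = false) (hA' : A (iv a) = false)
    (c : Lt r) (t : List (Lt r)) :
    Prim (FreeGroup.mk (J a A (c :: t) c)) ↔ Prim (FreeGroup.mk (c :: t)) := by
  rw [mk_J, List.headD_cons, prim_conj, ← SA_apply a A hA hA', prim_aut]

theorem prim_rotate (s t : List (Lt r)) (h : Prim (FreeGroup.mk (s ++ t))) :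
    Prim (FreeGroup.mk (t ++ s)) := by
  have : (FreeGroup.mk (t ++ s) : FreeGroup (Fin r))
      = (FreeGroup.mk s)⁻¹ * FreeGroup.mk (s ++ t) * FreeGroup.mk s := by
    rw [← FreeGroup.mul_mk, ← FreeGroup.mul_mk]
    group
  rw [this, prim_conj]
  exact h

/-! ### soundness -/

theorem real_step (a : Lt r) (A : Lt r → Bool) (H : Lt r → Lt r → Bool) (u u' : List (Lt r))
    (hA : A a = false) (hA' : A (iv a) = false) (h : Real (D a A H) u')
    (hu : u <:+: Ins a A u') : Real H u := by
  obtain ⟨w, ⟨hne, hpath, hprim⟩, m, hm⟩ := h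
  obtain ⟨c, t, rfl⟩ : ∃ c t, w = c :: t := List.exists_cons_of_ne_nil hne
  refine ⟨J a A (c :: t) c, ⟨by simp [J_cons], ?_, ?_⟩, m, ?_⟩
  · have h1 : J a A (c :: t) c ++ (J a A (c :: t) c).take 1 = Ins a A (c :: t ++ [c]) := by
      rw [Ins_append, Ins_one]
      simp [J_cons]
    rw [h1]
    apply isPath_Ins
    simpa using hpath
  · rw [prim_J a A hA hA']
    exact hprim
  · rw [← J_powers]
    exact (hu.trans (Ins_infix a A hm)).trans (Ins_prefix_J a A _ c).isInfix

/-- the automorphism inverting all generators -/
def invAut : MulAut (FreeGroup (Fin r)) :=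
  MonoidHom.toMulEquiv (FreeGroup.lift (fun i => (FreeGroup.of i)⁻¹))
    (FreeGroup.lift (fun i => (FreeGroup.of i)⁻¹))
    (by apply FreeGroup.ext_hom; intro i; simp) (by apply FreeGroup.ext_hom; intro i; simp)

theorem prim_letter (x : Lt r) : Prim (FreeGroup.mk [x]) := by
  rcases x with ⟨i, b⟩
  cases b
  · refine ⟨invAut, i, ?_⟩
    have : (FreeGroup.mk [(i, false)] : FreeGroup (Fin r)) = (FreeGroup.of i)⁻¹ := by
      simp [FreeGroup.of, FreeGroup.inv_mk, FreeGroup.invRev]
    rw [this]
    simp [invAut, MonoidHom.toMulEquiv]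
  · exact ⟨1, i, rfl⟩

theorem real_base (H : Lt r → Lt r → Bool) (x : Lt r) (k : ℕ) (h : H x x = true) :
    Real H (List.replicate k x) := by
  refine ⟨[x], ⟨by simp, by simpa [IsPath] using h, prim_letter x⟩, k, ?_⟩
  have : (List.replicate k [x]).flatten = List.replicate k x := by
    induction k with
    | zero => simp
    | succ k ih => simp [List.replicate_succ, ih]
  rw [this]

/-! ### completeness -/

theorem infix_cases {α : Type*} (P X Q u : List α) (h : u <:+: P ++ X ++ Q) :
    u <:+: X ++ Q ∨ u <:+: P ++ X ∨ X.length + 2 ≤ u.length := by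
  obtain ⟨s, t, h⟩ := h
  by_cases h1 : P.length ≤ s.length
  · left
    have e : s.take P.length ++ (s.drop P.length ++ u ++ t) = P ++ (X ++ Q) := by
      rw [← List.append_assoc, ← List.append_assoc, List.take_append_drop, h, List.append_assoc]
    have e2 := List.append_inj e (by simp; omega)
    exact ⟨_, _, e2.2⟩
  · by_cases h2 : Q.length ≤ t.length
    · right; left
      have e : (s ++ u ++ t.take (t.length - Q.length)) ++ t.drop (t.length - Q.length)
          = (P ++ X) ++ Q := by
        rw [List.append_assoc, List.take_append_drop, h]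
      have e2 := List.append_inj' e (by simp; omega)
      exact ⟨_, _, e2.1⟩
    · right; right
      have := congrArg List.length h
      simp only [List.length_append] at this
      omega

theorem J_last (a : Lt r) (A : Lt r → Bool) (l : List (Lt r)) (p q : Lt r) :
    J a A (l ++ [p]) q = Ins a A (l ++ [p]) ++ ins a A p q := by
  rw [J_append, Ins_append]
  simp [J_cons, J_nil, Ins_one]

/-- short factors of `Ins l` come from short factors of `l` -/
theorem factor (a : Lt r) (A : Lt r → Bool) (u : List (Lt r)) :
    ∀ (n : ℕ) (l : List (Lt r)), l.length ≤ n → u <:+: Ins a A l →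
      ∃ l', l' <:+: l ∧ l'.length ≤ max u.length 2 ∧ u <:+: Ins a A l' := by
  intro n
  induction n with
  | zero =>
    intro l hl hu
    exact ⟨l, List.infix_rfl, by omega, hu⟩
  | succ n ih =>
    intro l hl hu
    by_cases hs : l.length ≤ max u.length 2
    · exact ⟨l, List.infix_rfl, hs, hu⟩
    · obtain ⟨y, l1, rfl⟩ : ∃ y l1, l = y :: l1 := by
        cases l with
        | nil => simp at hs
        | cons y l1 => exact ⟨y, l1, rfl⟩
      obtain ⟨l2, q, rfl⟩ : ∃ l2 q, l1 = l2 ++ [q] := by
        rcases List.eq_nil_or_concat l1 with rfl | ⟨l2, q, rfl⟩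
        · simp at hs
        · exact ⟨l2, q, by simp⟩
      obtain ⟨z, l3, rfl⟩ : ∃ z l3, l2 = z :: l3 := by
        cases l2 with
        | nil => simp at hs
        | cons y l1 => exact ⟨y, l1, rfl⟩
      obtain ⟨l4, p, h4⟩ : ∃ l4 p, z :: l3 = l4 ++ [p] := by
        rcases List.eq_nil_or_concat (z :: l3) with h | ⟨l2, q, h⟩
        · simp at h
        · exact ⟨l2, q, by simpa using h⟩
      have e1 : Ins a A ((z :: l3) ++ [q]) = Ins a A (z :: l3) ++ (ins a A p q ++ [q]) := by
        rw [Ins_append, Ins_one, h4, J_last]
        simp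
      have e2 : Ins a A (y :: ((z :: l3) ++ [q]))
          = (y :: ins a A y z) ++ Ins a A (z :: l3) ++ (ins a A p q ++ [q]) := by
        rw [List.cons_append, Ins_cons, ← List.cons_append (as := l3), e1]
        simp
      have e3 : Ins a A (y :: z :: l3) = (y :: ins a A y z) ++ Ins a A (z :: l3) := by
        rw [Ins_cons]
        simp
      rw [e2] at hu
      have hlen : (z :: l3).length ≤ (Ins a A (z :: l3)).length := length_Ins a A _
      simp only [List.length_cons, List.length_append, List.length_nil] at hl hs hlen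
      rcases infix_cases _ _ _ _ hu with h | h | h
      · rw [← e1] at h
        obtain ⟨l', h1, h2, h3⟩ := ih ((z :: l3) ++ [q]) (by simp; omega) h
        exact ⟨l', h1.trans (List.suffix_cons _ _).isInfix, h2, h3⟩
      · rw [← e3] at h
        obtain ⟨l', h1, h2, h3⟩ := ih (y :: z :: l3) (by simp; omega) h
        refine ⟨l', h1.trans ?_, h2, h3⟩
        rw [← List.cons_append]
        exact (List.prefix_append _ _).isInfix
      · exfalso
        omega

/-- validity of the move on a pair -/
def Val (a : Lt r) (A : Lt r → Bool) (p q : Lt r) : Prop :=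
  (A p = true → A (iv q) = true ∨ q = iv a) ∧ (A (iv q) = true → A p = true ∨ p = a)

/-- no deletion at the pair -/
def NS (a : Lt r) (A : Lt r → Bool) (p q : Lt r) : Prop :=
  ¬ ((p = a ∧ A (iv q) = true) ∨ (q = iv a ∧ A p = true))

theorem ins_of_NS (a : Lt r) (A : Lt r → Bool) (p q : Lt r) (hV : Val a A p q)
    (hN : NS a A p q) : ins a A p q = [] := by
  unfold ins
  unfold NS at hN
  push Not at hN
  obtain ⟨h1, h2⟩ := hV
  split_ifs with c1 c2
  · exfalso
    rcases h1 c1.1 with h | h
    · rw [c1.2] at h
      exact Bool.false_ne_true h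
    · exact hN.2 h c1.1
  · exfalso
    rcases h2 c2.2 with h | h
    · rw [c2.1] at h
      exact Bool.false_ne_true h
    · exact hN.1 h c2.2
  · rfl

/-- if `z` between `y` and `q` is deleted then `ins y q = [z]` -/
theorem ins_of_del (a : Lt r) (A : Lt r → Bool) (hA : A a = false) (hA' : A (iv a) = false)
    (y z q : Lt r) (h1 : Val a A y z) (h2 : Val a A z q)
    (hd : (z = a ∧ A (iv q) = true) ∨ (z = iv a ∧ A y = true)) : ins a A y q = [z] := by
  rcases hd with ⟨rfl, hq⟩ | ⟨rfl, hy⟩
  · have hy : A y = false := by
      by_contra hy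
      rw [Bool.not_eq_false] at hy
      rcases h1.1 hy with h | h
      · rw [hA'] at h
        exact Bool.false_ne_true h
      · exact iv_ne _ h.symm
    simp [ins, hy, hq]
  · have hq : A (iv q) = false := by
      by_contra hq
      rw [Bool.not_eq_false] at hq
      rcases h2.2 hq with h | h
      · rw [hA'] at h
        exact Bool.false_ne_true h
      · exact iv_ne _ h
    simp [ins, hy, hq]

theorem D_of_nil (a : Lt r) (A : Lt r → Bool) (H : Lt r → Lt r → Bool) (p q : Lt r)
    (h : ins a A p q = []) : D a A H p q = H p q := by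
  unfold D
  rw [h]

theorem D_of_one (a : Lt r) (A : Lt r → Bool) (H : Lt r → Lt r → Bool) (p q z : Lt r)
    (h : ins a A p q = [z]) : D a A H p q = (H p z && H z q) := by
  unfold D
  rw [h]

theorem del_lemma (a : Lt r) (A : Lt r → Bool) (hA : A a = false) (hA' : A (iv a) = false)
    (H : Lt r → Lt r → Bool) (hH : Le0 H) (c : Lt r) (hc : c ≠ a) (hc' : c ≠ iv a) :
    ∀ (n : ℕ) (y : Lt r) (t : List (Lt r)), t.length ≤ n →
      List.IsChain (Val a A) (y :: t ++ [c]) → IsPath H (y :: t ++ [c]) →
      ¬ (y = a ∧ A (iv (t.headD c)) = true) →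
      ∃ t', J a A (y :: t') c = y :: t ∧ IsPath (D a A H) (y :: t' ++ [c]) ∧
        (t'.length < t.length ∨ (t'.length = t.length ∧ List.IsChain (NS a A) (y :: t ++ [c]))) := by
  intro n
  induction n with
  | zero =>
    intro y t ht hV hP hy
    have : t = [] := List.eq_nil_of_length_eq_zero (by omega)
    subst this
    simp only [List.headD_nil] at hy
    simp only [List.cons_append, List.nil_append, List.isChain_cons_cons, IsPath,
      List.isChain_singleton, and_true] at hV hP ⊢
    have hN : NS a A y c := by
      unfold NS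
      rintro (h | h)
      · exact hy h
      · exact hc' h.1
    have hi := ins_of_NS a A y c hV hN
    refine ⟨[], ?_, ?_, Or.inr ⟨rfl, ?_⟩⟩
    · simp [J_cons, J_nil, hi]
    · simp [D_of_nil a A H y c hi, hP]
    · exact hN
  | succ n ih =>
    intro y t ht hV hP hy
    rcases t with _ | ⟨z, t⟩
    · exact (ih y [] (by simp) hV hP hy)
    · simp only [List.headD_cons] at hy
      have hV1 : Val a A y z := by
        simp only [List.cons_append, List.isChain_cons_cons] at hV
        exact hV.1
      have hV2 : List.IsChain (Val a A) (z :: t ++ [c]) := by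
        simp only [List.cons_append, List.isChain_cons_cons] at hV
        exact hV.2
      have hP1 : H y z = true := by
        simp only [List.cons_append, List.isChain_cons_cons, IsPath] at hP
        exact hP.1
      have hP2 : IsPath H (z :: t ++ [c]) := by
        simp only [List.cons_append, List.isChain_cons_cons, IsPath] at hP
        exact hP.2
      have hl : t.length ≤ n := by simpa using ht
      by_cases hd : (z = a ∧ A (iv (t.headD c)) = true) ∨ (z = iv a ∧ A y = true)
      · -- `z` is deleted
        rcases t with _ | ⟨q, t⟩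
        · simp only [List.headD_nil] at hd
          simp only [List.cons_append, List.nil_append, List.isChain_cons_cons, IsPath,
            List.isChain_singleton, and_true] at hV2 hP2
          have hi := ins_of_del a A hA hA' y z c hV1 hV2 hd
          refine ⟨[], ?_, ?_, Or.inl (by simp)⟩
          · simp [J_cons, J_nil, hi]
          · simp [IsPath, D_of_one a A H y c z hi, hP1, hP2]
        · simp only [List.headD_cons] at hd
          have hV3 : Val a A z q := by
            simp only [List.cons_append, List.isChain_cons_cons] at hV2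
            exact hV2.1
          have hV4 : List.IsChain (Val a A) (q :: t ++ [c]) := by
            simp only [List.cons_append, List.isChain_cons_cons] at hV2
            exact hV2.2
          have hP3 : H z q = true := by
            simp only [List.cons_append, List.isChain_cons_cons, IsPath] at hP2
            exact hP2.1
          have hP4 : IsPath H (q :: t ++ [c]) := by
            simp only [List.cons_append, List.isChain_cons_cons, IsPath] at hP2
            exact hP2.2
          have hq : q ≠ a := by
            rintro rfl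
            rcases hd with ⟨rfl, h⟩ | ⟨rfl, h⟩
            · rw [hA'] at h
              exact Bool.false_ne_true h
            · exact hH _ _ hP3 (iv_iv _).symm
          obtain ⟨t', h1, h2, h3⟩ := ih q t (by simp at hl; omega) hV4 hP4 (fun h => hq h.1)
          have hi := ins_of_del a A hA hA' y z q hV1 hV3 hd
          refine ⟨q :: t', ?_, ?_, Or.inl ?_⟩
          · rw [J_cons, h1]
            simp [hi]
          · simp only [List.cons_append, List.isChain_cons_cons, IsPath] at h2 ⊢
            refine ⟨?_, h2⟩
            rw [D_of_one a A H y q z hi, hP1, hP3]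
            rfl
          · simp only [List.length_cons]
            omega
      · have hN : NS a A y z := by
          unfold NS
          rintro (h | h)
          · exact hy h
          · exact hd (Or.inr h)
        have hi := ins_of_NS a A y z hV1 hN
        obtain ⟨t', h1, h2, h3⟩ := ih z t hl hV2 hP2 (fun h => hd (Or.inl h))
        refine ⟨z :: t', ?_, ?_, ?_⟩
        · rw [J_cons, h1]
          simp [hi]
        · simp only [List.cons_append, List.isChain_cons_cons, IsPath] at h2 ⊢
          refine ⟨?_, h2⟩
          rw [D_of_nil a A H y z hi, hP1]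
        · rcases h3 with h3 | ⟨h3, h4⟩
          · left
            simpa using h3
          · right
            refine ⟨by simpa using h3, ?_⟩
            simp only [List.cons_append, List.isChain_cons_cons] at h4 ⊢
            exact ⟨hN, h4⟩

/-- the statement of the cut vertex lemma -/
def CutVertex (r : ℕ) : Prop :=
  ∀ (w : List (Lt r)), 2 ≤ w.length →
    List.IsChain (fun p q => q ≠ iv p) (w ++ w.take 1) → Prim (FreeGroup.mk w) →
    ∃ (a : Lt r) (A : Lt r → Bool), A a = false ∧ A (iv a) = false ∧
      List.IsChain (fun p q => (A p = true → A (iv q) = true ∨ q = iv a) ∧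
        (A (iv q) = true → A p = true ∨ p = a)) (w ++ w.take 1) ∧
      ∃ p q, [p, q] <:+: (w ++ w.take 1) ∧
        ((p = a ∧ A (iv q) = true) ∨ (q = iv a ∧ A p = true))

theorem completeness (hCV : CutVertex r) (N : ℕ) (hN : 2 ≤ N)
    (T : (Lt r → Lt r → Bool) → List (Lt r) → Prop)
    (hb : ∀ (H : Lt r → Lt r → Bool) (x : Lt r) (k : ℕ), Le0 H →
        H x x = true → k ≤ N → T H (List.replicate k x))
    (hs : ∀ (a : Lt r) (A : Lt r → Bool) (H : Lt r → Lt r → Bool) (u u' : List (Lt r)),
        A a = false → A (iv a) = false → Le0 H →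
        T (D a A H) u' → u <:+: Ins a A u' → u.length ≤ N → T H u) :
    ∀ (n : ℕ) (w : List (Lt r)), w.length ≤ n → ∀ (H : Lt r → Lt r → Bool) (u : List (Lt r)),
      Le0 H → u.length ≤ N → Cyc H w → (∃ m : ℕ, u <:+: (List.replicate m w).flatten) → T H u := by
  intro n
  induction n with
  | zero =>
    intro w hw H u _ _ hC _
    exact absurd (List.eq_nil_of_length_eq_zero (by omega)) hC.ne
  | succ n ih =>
    intro w hw H u hH hu hC ⟨m, hm⟩
    by_cases h1 : w.length = 1
    · obtain ⟨x, rfl⟩ := List.length_eq_one_iff.1 h1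
      have hx : H x x = true := by
        have := hC.path
        simpa [IsPath] using this
      have e : (List.replicate m [x]).flatten = List.replicate m x := by
        clear hm
        induction m with
        | zero => simp
        | succ k ih => simp [List.replicate_succ, ih]
      rw [e] at hm
      have e2 : u = List.replicate u.length x := by
        rw [List.eq_replicate_iff]
        refine ⟨rfl, fun b hb => ?_⟩
        exact List.eq_of_mem_replicate (hm.subset hb)
      rw [e2]
      exact hb H x u.length hH hx hu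
    · have h2 : 2 ≤ w.length := by
        have : w.length ≠ 0 := fun h => hC.ne (List.eq_nil_of_length_eq_zero h)
        omega
      have hCC : CC (fun p q => H p q = true) w := hC.path
      obtain ⟨a, A, hA, hA', hV, p, q, hpq, hstr⟩ := hCV w h2
        (hCC.imp (fun p q h => hH p q h)) hC.prim
      have hV' : CC (Val a A) w := hV
      have hnN : ¬ CC (NS a A) w := by
        intro h
        obtain ⟨s, t, e⟩ := hpq
        unfold CC at h
        rw [← e] at h
        have h' := (List.isChain_append.1 (List.isChain_append.1 h).1).2.1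
        simp only [List.isChain_cons_cons] at h'
        exact h'.1 hstr
      -- a kept letter
      obtain ⟨c, hcw, hc, hc'⟩ : ∃ c ∈ w, c ≠ a ∧ c ≠ iv a := by
        have hmem : ∀ x ∈ w ++ w.take 1, x ∈ w := by
          intro x hx
          rcases List.mem_append.1 hx with h | h
          · exact h
          · exact List.mem_of_mem_take h
        rcases hstr with ⟨_, hq⟩ | ⟨_, hp⟩
        · refine ⟨q, hmem q (hpq.subset (by simp)), ?_, ?_⟩
          · rintro rfl
            rw [hA'] at hq
            exact Bool.false_ne_true hq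
          · rintro rfl
            rw [iv_iv, hA] at hq
            exact Bool.false_ne_true hq
        · refine ⟨p, hmem p (hpq.subset (by simp)), ?_, ?_⟩
          · rintro rfl
            rw [hA] at hp
            exact Bool.false_ne_true hp
          · rintro rfl
            rw [hA'] at hp
            exact Bool.false_ne_true hp
      obtain ⟨s, t, rfl⟩ := List.append_of_mem hcw
      have hCC1 := CC_rotate _ _ _ hCC
      have hV1 := CC_rotate _ _ _ hV'
      have hN1 : ¬ CC (NS a A) (c :: t ++ s) := fun h => hnN (CC_rotate _ _ _ h)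
      have hpr1 := prim_rotate _ _ hC.prim
      have hm1 : u <:+: (List.replicate (m + 1) (c :: t ++ s)).flatten := by
        rw [← flatten_rotate]
        exact hm.trans ((List.suffix_append _ _).isInfix.trans (List.prefix_append _ _).isInfix)
      rw [List.cons_append] at hCC1 hV1 hN1 hpr1 hm1
      rw [CC_cons] at hCC1 hV1 hN1
      obtain ⟨t', e1, e2, e3⟩ := del_lemma a A hA hA' H hH c hc hc' _ c (t ++ s) le_rfl hV1 hCC1
        (fun h => hc h.1)
      have e4 : t'.length < (t ++ s).length := by
        rcases e3 with h | h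
        · exact h
        · exact absurd h.2 hN1
      have hC' : Cyc (D a A H) (c :: t') := by
        refine ⟨by simp, ?_, ?_⟩
        · simpa using e2
        · rw [← prim_J a A hA hA', e1]
          exact hpr1
      rw [← e1, ← J_powers] at hm1
      have hm2 : u <:+: Ins a A ((List.replicate (m + 2) (c :: t')).flatten) := by
        refine hm1.trans ?_
        have : (List.replicate (m + 2) (c :: t')).flatten
            = (List.replicate (m + 1) (c :: t')).flatten ++ c :: t' := by
          rw [List.replicate_succ' (n := m + 1), List.flatten_append]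
          simp
        rw [this, Ins_append]
        exact (List.prefix_append _ _).isInfix
      obtain ⟨u', f1, f2, f3⟩ := factor a A u _ _ le_rfl hm2
      have hT : T (D a A H) u' := by
        refine ih (c :: t') ?_ (D a A H) u' (D_le0 a A H hH) ?_ hC' ⟨_, f1⟩
        · simp only [List.length_append, List.length_cons] at e4 hw ⊢
          omega
        · exact f2.trans (max_le hu hN)
      exact hs a A H u u' hA hA' hH hT f3 hu

theorem completeness' (hCV : CutVertex r) (N : ℕ)
    (T : (Lt r → Lt r → Bool) → List (Lt r) → Prop) (hN : 2 ≤ N)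
    (hb : ∀ (H : Lt r → Lt r → Bool) (x : Lt r) (k : ℕ), (∀ p q, H p q = true → q ≠ iv p) →
        H x x = true → k ≤ N → T H (List.replicate k x))
    (hs : ∀ (a : Lt r) (A : Lt r → Bool) (H : Lt r → Lt r → Bool) (u u' : List (Lt r)),
        A a = false → A (iv a) = false → (∀ p q, H p q = true → q ≠ iv p) →
        T (D a A H) u' → u <:+: Ins a A u' → u.length ≤ N → T H u) :
    ∀ (H : Lt r → Lt r → Bool) (u : List (Lt r)), (∀ p q, H p q = true → q ≠ iv p) →
      u.length ≤ N → Real H u → T H u := by
  rintro H u hH hu ⟨w, hC, hm⟩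
  exact completeness hCV N hN T hb hs _ w le_rfl H u hH hu hC hm

end Pool.Agent.Helper385.Blk
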