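import Mathlib

set_option autoImplicit false

namespace Pool.Agent.Helper385.Blk

variable {r : ℕ}

/-- letters: generators and their inverses -/
abbrev Lt (r : ℕ) := Fin r × Bool

/-- the inverse letter -/
def iv (y : Lt r) : Lt r := (y.1, !y.2)

/-- what is inserted between the consecutive letters `p` and `q` by the move `(a, A)` -/
def ins (a : Lt r) (A : Lt r → Bool) (p q : Lt r) : List (Lt r) :=
  if A p = true ∧ A (iv q) = false then [iv a]
  else if A p = false ∧ A (iv q) = true then [a]
  else []

/-- insertion along a path -/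
def Ins (a : Lt r) (A : Lt r → Bool) : List (Lt r) → List (Lt r)
  | [] => []
  | y :: t => y :: (match t with
    | [] => []
    | z :: _ => ins a A y z) ++ Ins a A t

/-- `l` is a path in the directed graph `H` on the letters -/
def IsPath (H : Lt r → Lt r → Bool) (l : List (Lt r)) : Prop :=
  List.IsChain (fun p q => H p q = true) l

/-- no cancellation -/
def H0 : Lt r → Lt r → Bool := fun p q => decide (q ≠ iv p)

/-- the derived graph -/
def D (a : Lt r) (A : Lt r → Bool) (H : Lt r → Lt r → Bool) : Lt r → Lt r → Bool :=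
  fun p q => match ins a A p q with
    | [] => H p q
    | z :: _ => H p z && H z q

/-- primitive elements -/
def Prim (g : FreeGroup (Fin r)) : Prop :=
  ∃ (φ : MulAut (FreeGroup (Fin r))) (i : Fin r), φ (FreeGroup.of i) = g

/-- `w` is a nonempty cyclic path in `H` representing a primitive element -/
structure Cyc (H : Lt r → Lt r → Bool) (w : List (Lt r)) : Prop where
  ne : w ≠ []
  path : IsPath H (w ++ w.take 1)
  prim : Prim (FreeGroup.mk w)

/-- the state `(H, u)` is realised -/
def Real (H : Lt r → Lt r → Bool) (u : List (Lt r)) : Prop :=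
  ∃ w, Cyc H w ∧ ∃ m : ℕ, u <:+: (List.replicate m w).flatten

/-- the predicate of the frozen statement -/
def NB (v : List (Lt r)) : Prop :=
  ∃ (φ : MulAut (FreeGroup (Fin r))) (i : Fin r),
    List.IsInfix v (φ (FreeGroup.of i)).toWord ∧
    ∀ a ∈ (φ (FreeGroup.of i)).toWord.head?,
      ∀ b ∈ (φ (FreeGroup.of i)).toWord.getLast?,
        ¬ (a.1 = b.1 ∧ a.2 ≠ b.2)

end Pool.Agent.Helper385.Blk
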