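import Pool.Agent.Helper385.BlkDefs

set_option autoImplicit false

namespace Pool.Agent.Helper385.Blk.E

variable {r : ℕ}



open FreeGroup

lemma cancel : ∀ (P Q : List (Lt r)), IsReduced P → IsReduced Q →
    ∃ P1 C Q1, P = P1 ++ C ∧ Q = invRev C ++ Q1 ∧ IsReduced (P1 ++ Q1) := by
  intro P
  induction P using List.reverseRecOn with
  | nil =>
    intro Q _ hQ
    exact ⟨[], [], Q, by simp, by simp [invRev], by simpa using hQ⟩
  | append_singleton P a ih =>
    intro Q hP hQ
    cases Q with
    | nil => exact ⟨P ++ [a], [], [], by simp, by simp [invRev], by simpa using hP⟩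
    | cons b Q =>
      by_cases hb : b = iv a
      · have hP' : IsReduced P := by
          rw [FreeGroup.IsReduced] at hP ⊢
          exact (List.isChain_append.1 hP).1
        have hQ' : IsReduced Q := by
          rw [FreeGroup.IsReduced] at hQ ⊢
          have : b :: Q = [b] ++ Q := rfl
          rw [this] at hQ
          exact (List.isChain_append.1 hQ).2.1
        obtain ⟨P1, C, Q1, h1, h2, h3⟩ := ih Q hP' hQ'
        refine ⟨P1, C ++ [a], Q1, by simp [h1], ?_, h3⟩
        rw [h2, hb]
        simp [invRev, iv]
      · refine ⟨P ++ [a], [], b :: Q, by simp, by simp [invRev], ?_⟩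
        rw [FreeGroup.IsReduced] at hP hQ ⊢
        rw [List.isChain_append]
        refine ⟨hP, hQ, ?_⟩
        intro x hx y hy hxy
        simp only [List.getLast?_concat, Option.mem_def, Option.some.injEq, List.head?_cons] at hx hy
        subst hx; subst hy
        by_contra hne
        apply hb
        rw [iv]
        ext
        · simp [hxy]
        · simp
          cases h1 : a.2 <;> cases h2 : b.2 <;> simp_all

lemma factor_rot (w : List (Lt r)) : ∀ (n : ℕ) (F : List (Lt r)), F.length = w.length →
    F <:+: (List.replicate n w).flatten → F.Perm w := by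
  intro n
  induction n with
  | zero =>
    intro F hF hi
    simp at hi
    subst hi
    have : w = [] := by
      apply List.eq_nil_of_length_eq_zero
      simpa using hF.symm
    simp [this]
  | succ n ih =>
    intro F hF hi
    obtain ⟨s, t, hst⟩ := hi
    rw [List.replicate_succ, List.flatten_cons, List.append_assoc] at hst
    rcases le_or_gt w.length s.length with hle | hlt
    · have : w <+: s := by
        apply List.prefix_of_prefix_length_le (l₃ := s ++ (F ++ t)) _ (List.prefix_append _ _) hle
        rw [hst]
        exact List.prefix_append _ _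
      obtain ⟨s', rfl⟩ := this
      rw [List.append_assoc, List.append_cancel_left_eq] at hst
      exact ih F hF ⟨s', t, by rw [List.append_assoc]; exact hst⟩
    · have : s <+: w := by
        apply List.prefix_of_prefix_length_le (l₃ := s ++ (F ++ t)) (List.prefix_append _ _) _ hlt.le
        rw [hst]
        exact List.prefix_append _ _
      obtain ⟨w2, rfl⟩ := this
      rw [List.append_assoc, List.append_cancel_left_eq] at hst
      have h2 : w2 <+: F := by
        apply List.prefix_of_prefix_length_le (l₃ := F ++ t) _ (List.prefix_append _ _) _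
        · rw [hst]
          exact List.prefix_append _ _
        · rw [hF, List.length_append]; omega
      obtain ⟨f2, rfl⟩ := h2
      rw [List.append_assoc, List.append_cancel_left_eq] at hst
      have hl : f2.length = s.length := by
        rw [List.length_append, List.length_append] at hF
        omega
      have : f2 = s := by
        cases n with
        | zero =>
          simp at hst
          rw [hst.1] at hl
          rw [hst.1]
          exact (List.eq_nil_of_length_eq_zero (by simpa using hl.symm)).symm
        | succ n =>
          rw [List.replicate_succ, List.flatten_cons] at hst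
          have h3 : f2 ++ t = s ++ (w2 ++ (List.replicate n (s ++ w2)).flatten) := by
            rw [hst]; simp
          exact (List.append_inj h3 hl).1
      rw [this]
      exact List.perm_append_comm

lemma mk_flatten (w : List (Lt r)) (n : ℕ) : (mk w)^n = mk (List.replicate n w).flatten := by
  induction n with
  | zero => simp; rfl
  | succ n ih =>
    rw [pow_succ', ih, List.replicate_succ, List.flatten_cons, mul_mk]

lemma lam_perm (lam : FreeGroup (Fin r) →* Multiplicative ℤ) (F w : List (Lt r)) (h : F.Perm w) :
    lam (mk F) = lam (mk w) := by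
  induction h with
  | nil => rfl
  | cons x _ ih =>
    rename_i l1 l2 _
    have h1 : mk (x :: l1) = mk [x] * mk l1 := by rw [mul_mk]; rfl
    have h2 : mk (x :: l2) = mk [x] * mk l2 := by rw [mul_mk]; rfl
    rw [h1, h2, _root_.map_mul, _root_.map_mul, ih]
  | swap x y l =>
    have h1 : mk (x :: y :: l) = mk [x] * mk [y] * mk l := by rw [mul_mk, mul_mk]; rfl
    have h2 : mk (y :: x :: l) = mk [y] * mk [x] * mk l := by rw [mul_mk, mul_mk]; rfl
    rw [h1, h2]
    simp only [_root_.map_mul]
    rw [mul_comm (lam (mk [x]))]
  | trans _ _ ih1 ih2 => rw [ih1, ih2]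

/-- the automorphism multiplying `x_j` by a power of `x_i` on both sides -/
lemma exists_tau (i j : Fin r) (hij : j ≠ i) (n : ℕ) :
    ∃ τ : MulAut (FreeGroup (Fin r)), τ (of j) = (of i)^n * of j * (of i)^n := by
  let f : Fin r → FreeGroup (Fin r) := fun k => if k = j then (of i)^n * of j * (of i)^n else of k
  let g : Fin r → FreeGroup (Fin r) := fun k =>
    if k = j then ((of i)^n)⁻¹ * of j * ((of i)^n)⁻¹ else of k
  have hfi : f i = of i := by simp [f, hij.symm]
  have hgi : g i = of i := by simp [g, hij.symm]
  have hfj : f j = (of i)^n * of j * (of i)^n := by simp [f]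
  have hgj : g j = ((of i)^n)⁻¹ * of j * ((of i)^n)⁻¹ := by simp [g]
  refine ⟨MonoidHom.toMulEquiv (FreeGroup.lift f) (FreeGroup.lift g) ?_ ?_, ?_⟩
  · apply FreeGroup.ext_hom
    intro k
    by_cases hk : k = j
    · subst hk
      simp only [MonoidHom.coe_comp, Function.comp_apply, lift_apply_of, hfj, _root_.map_mul, _root_.map_pow,
        hgi, hgj, MonoidHom.id_apply]
      group
    · have : f k = of k := by simp [f, hk]
      have h2 : g k = of k := by simp [g, hk]
      simp [this, h2]
  · apply FreeGroup.ext_hom
    intro k
    by_cases hk : k = j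
    · subst hk
      simp only [MonoidHom.coe_comp, Function.comp_apply, lift_apply_of, hfj, _root_.map_mul, _root_.map_pow,
        hfi, hgj, MonoidHom.id_apply, _root_.map_inv]
      group
    · have : f k = of k := by simp [f, hk]
      have h2 : g k = of k := by simp [g, hk]
      simp [this, h2]
  · simp [hfj]

/-- If a word `v` is a factor of a power of a nonempty cyclically reduced word `w` representing a
primitive element, then it is a factor of a cyclically reduced primitive word. -/
theorem factor_of_power (hr : 2 ≤ r) (w v : List (Lt r)) (hne : w ≠ [])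
    (hw : List.IsChain (fun p q => q ≠ iv p) (w ++ w.take 1))
    (φ : MulAut (FreeGroup (Fin r))) (i : Fin r) (hφ : φ (FreeGroup.of i) = FreeGroup.mk w)
    (m : ℕ) (hv : v <:+: (List.replicate m w).flatten) :
    ∃ (φ : MulAut (FreeGroup (Fin r))) (i : Fin r),
      List.IsInfix v (φ (FreeGroup.of i)).toWord ∧
      ∀ a ∈ (φ (FreeGroup.of i)).toWord.head?,
        ∀ b ∈ (φ (FreeGroup.of i)).toWord.getLast?,
          ¬ (a.1 = b.1 ∧ a.2 ≠ b.2) := by
  -- the word is cyclically reduced
  have hiv : ∀ p q : Lt r, q ≠ iv p → (p.1 = q.1 → p.2 = q.2) := by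
    intro p q h hpq
    by_contra hne
    apply h
    rw [iv]
    ext
    · simp [hpq]
    · simp
      cases h1 : p.2 <;> cases h2 : q.2 <;> simp_all
  have hlastw : ∃ b, w.getLast? = some b := by
    exact ⟨_, List.getLast?_eq_getLast_of_ne_nil hne⟩
  obtain ⟨bl, hbl⟩ := hlastw
  have hheadw : ∃ a, w.head? = some a := by
    exact ⟨_, List.head?_eq_some_head hne⟩
  obtain ⟨ah, hah⟩ := hheadw
  have htake : w.take 1 = [ah] := by
    cases w with
    | nil => exact absurd rfl hne
    | cons x l => simp at hah; simp [hah]
  have hba : ah ≠ iv bl := by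
    rw [List.isChain_append] at hw
    exact hw.2.2 bl hbl ah (by simp [htake])
  have hcyc : IsCyclicallyReduced w := by
    refine ⟨?_, ?_⟩
    · rw [FreeGroup.IsReduced]
      exact (List.isChain_append.1 hw).1.imp (fun p q h => hiv p q h)
    · intro a ha b hb
      rw [Option.mem_def, hbl] at ha
      rw [Option.mem_def, hah] at hb
      cases ha; cases hb
      exact hiv _ _ hba
  -- choose j
  obtain ⟨j, hj⟩ : ∃ j : Fin r, j ≠ i := by
    have : Nontrivial (Fin r) := Fin.nontrivial_iff_two_le.2 hr
    exact exists_ne i
  set U : List (Lt r) := (φ (of j)).toWord with hU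
  set m' : ℕ := m + 1 with hm'
  have hwl : 1 ≤ w.length := by
    cases w with
    | nil => exact absurd rfl hne
    | cons x l => simp
  set n : ℕ := U.length + 1 + m' with hn
  set Wn : List (Lt r) := (List.replicate n w).flatten with hWn
  have hWred : IsReduced Wn := (hcyc.flatten_replicate n).isReduced
  have hlenW : ∀ k : ℕ, ((List.replicate k w).flatten).length = k * w.length := by
    intro k
    simp [List.length_flatten]
  obtain ⟨U1, C', D, hU1, hWD, hQred⟩ := cancel U Wn isReduced_toWord hWred
  obtain ⟨P1, C, Q1, hWP, hQC, hPQ⟩ := cancel Wn (U1 ++ D) hWred hQred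
  -- the abelian invariant
  let lam : FreeGroup (Fin r) →* Multiplicative ℤ :=
    (FreeGroup.lift (fun k => if k = i then Multiplicative.ofAdd (1:ℤ) else 1)).comp
      (φ.symm : FreeGroup (Fin r) ≃* FreeGroup (Fin r)).toMonoidHom
  have hlam : lam (mk w) = Multiplicative.ofAdd (1:ℤ) := by
    rw [← hφ]
    simp [lam]
  -- bound on C
  have hCbound : C.length < U1.length + w.length := by
    by_contra hcon
    push Not at hcon
    have hlenC : (invRev C).length = C.length := invRev_length
    have h1 : U1 <+: invRev C := by
      apply List.prefix_of_prefix_length_le (l₃ := U1 ++ D) (List.prefix_append _ _)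
      · rw [hQC]; exact List.prefix_append _ _
      · rw [hlenC]; omega
    obtain ⟨D', hD'⟩ := h1
    have h2 : D' ++ Q1 = D := by
      rw [← hD', List.append_assoc, List.append_cancel_left_eq] at hQC
      exact hQC.symm
    have hlD : w.length ≤ D'.length := by
      have := congrArg List.length hD'
      rw [List.length_append, hlenC] at this
      omega
    -- split D'
    set D1 := D'.take w.length with hD1
    set D2 := D'.drop w.length with hD2
    have h12 : D' = D1 ++ D2 := (List.take_append_drop _ _).symm
    have hlD1 : D1.length = w.length := by rw [hD1, List.length_take]; omega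
    have hinf1 : D1 <:+: (List.replicate n w).flatten := by
      refine ⟨invRev C', D2 ++ Q1, ?_⟩
      rw [← hWn, hWD, ← h2, h12]
      simp
    have hinf2 : invRev D1 <:+: (List.replicate n w).flatten := by
      refine ⟨P1 ++ invRev D2, invRev U1, ?_⟩
      rw [← hWn, hWP]
      have : C = invRev (U1 ++ D') := by rw [hD', invRev_invRev]
      rw [this, h12]
      simp [invRev]
    have hp1 := factor_rot w n D1 hlD1 hinf1
    have hp2 := factor_rot w n (invRev D1) (by rw [invRev_length, hlD1]) hinf2
    have e1 := lam_perm lam _ _ hp1
    have e2 := lam_perm lam _ _ hp2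
    rw [← inv_mk, _root_.map_inv, e1, hlam] at e2
    have e3 : Multiplicative.toAdd ((Multiplicative.ofAdd (1:ℤ))⁻¹) =
      Multiplicative.toAdd (Multiplicative.ofAdd (1:ℤ)) := by rw [e2]
    simp at e3
  -- the automorphism
  obtain ⟨τ, hτ⟩ := exists_tau i j hj n
  have hgen : (φ * τ) (of j) = mk (P1 ++ Q1) := by
    have e1 : (φ * τ) (of j) = (mk w)^n * φ (of j) * (mk w)^n := by
      show φ (τ (of j)) = _
      rw [hτ, _root_.map_mul, _root_.map_mul, _root_.map_pow, hφ]
    have e2 : φ (of j) = mk U := by rw [hU, mk_toWord]
    have e3 : mk U * mk Wn = mk (U1 ++ D) := by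
      rw [hU1, hWD, ← mul_mk, ← mul_mk, ← mul_mk, ← inv_mk]
      group
    have e4 : mk Wn * mk (U1 ++ D) = mk (P1 ++ Q1) := by
      rw [hQC]
      conv_lhs => rw [hWP]
      rw [← mul_mk, ← mul_mk, ← mul_mk, ← inv_mk]
      group
    rw [e1, e2, mk_flatten, ← hWn, mul_assoc, e3, e4]
  have hword : ((φ * τ) (of j)).toWord = P1 ++ Q1 := by
    rw [hgen, toWord_mk, hPQ.reduce_eq]
  -- lengths
  have hC'U : C'.length ≤ U.length := by rw [hU1, List.length_append]; omega
  have hU1U : U1.length ≤ U.length := by rw [hU1, List.length_append]; omega
  have hWl : Wn.length = n * w.length := hlenW n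
  have hbig : U.length + w.length + m' * w.length ≤ n * w.length := by
    rw [hn]
    have : U.length * 1 ≤ U.length * w.length := Nat.mul_le_mul_left _ hwl
    ring_nf
    ring_nf at this
    omega
  have hPlen : P1.length + C.length = n * w.length := by
    rw [← hWl, hWP, List.length_append]
  have hDlen : C'.length + D.length = n * w.length := by
    rw [← hWl, hWD, List.length_append, invRev_length]
  have hQlen : U1.length + D.length = C.length + Q1.length := by
    have := congrArg List.length hQC
    rw [List.length_append, List.length_append, invRev_length] at this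
    exact this
  set Wm : List (Lt r) := (List.replicate m' w).flatten with hWm
  have hWml : Wm.length = m' * w.length := hlenW m'
  have hsplit : Wn = Wm ++ (List.replicate (U.length + 1) w).flatten := by
    rw [hWn, hWm, ← List.flatten_append, List.replicate_append_replicate, hn]
    congr 2
    omega
  have hsplit2 : Wn = (List.replicate (U.length + 1) w).flatten ++ Wm := by
    rw [hWn, hWm, ← List.flatten_append, List.replicate_append_replicate, hn]
  have hpre : Wm <+: P1 := by
    apply List.prefix_of_prefix_length_le (l₃ := Wn)
    · rw [hsplit]; exact List.prefix_append _ _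
    · rw [hWP]; exact List.prefix_append _ _
    · omega
  have hsuf0 : Wm <:+ D := by
    apply List.suffix_of_suffix_length_le (l₃ := Wn)
    · rw [hsplit2]; exact List.suffix_append _ _
    · rw [hWD]; exact List.suffix_append _ _
    · omega
  have hsuf : Wm <:+ Q1 := by
    apply List.suffix_of_suffix_length_le (l₃ := U1 ++ D)
    · exact hsuf0.trans (List.suffix_append _ _)
    · rw [hQC]; exact List.suffix_append _ _
    · omega
  have hWm_eq1 : Wm = w ++ (List.replicate m w).flatten := by
    rw [hWm, hm', List.replicate_succ, List.flatten_cons]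
  have hWm_eq2 : Wm = (List.replicate m w).flatten ++ w := by
    rw [hWm, hm', List.replicate_succ', List.flatten_append]; simp
  refine ⟨φ * τ, j, ?_, ?_⟩
  · rw [hword]
    have h1 : v <:+: Wm := by
      rw [hWm_eq1]
      exact hv.trans (List.suffix_append _ _).isInfix
    exact h1.trans (hpre.isInfix.trans (List.prefix_append _ _).isInfix)
  · rw [hword]
    intro a ha b hb
    obtain ⟨P2, hP2⟩ := hpre
    obtain ⟨Q2, hQ2⟩ := hsuf
    have ha' : a = ah := by
      rw [← hP2, hWm_eq1] at ha
      simp only [List.append_assoc, Option.mem_def] at ha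
      rw [List.head?_append, hah] at ha
      simpa using ha.symm
    have hb' : b = bl := by
      rw [← hQ2, hWm_eq2] at hb
      simp only [← List.append_assoc, Option.mem_def] at hb
      rw [List.getLast?_append, hbl] at hb
      simpa using hb.symm
    rw [ha', hb']
    rintro ⟨h1, h2⟩
    exact h2 (hiv _ _ hba h1.symm).symm

end Pool.Agent.Helper385.Blk.E
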