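import Mathlib

set_option autoImplicit false

open Polynomial Matrix

namespace Pool.Agent.Helper385.PSL2

noncomputable section Lead

variable {K : Type} [Field K]

/-- The entries of `M` have degree at most `n`, and the matrix of coefficients of degree `n`
is the rank one matrix `v * φ`. -/
def Lead (M : Matrix (Fin 2) (Fin 2) K[X]) (n : ℕ) (v φ : Fin 2 → K) : Prop :=
  ∀ i j, (M i j).natDegree ≤ n ∧ (M i j).coeff n = v i * φ j

theorem Lead.mul {M N : Matrix (Fin 2) (Fin 2) K[X]} {m n : ℕ} {v φ v' φ' : Fin 2 → K}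
    (hM : Lead M m v φ) (hN : Lead N n v' φ') :
    Lead (M * N) (m + n) v (fun j => (φ 0 * v' 0 + φ 1 * v' 1) * φ' j) := by
  intro i j
  have h0 := hM i 0
  have h1 := hM i 1
  have k0 := hN 0 j
  have k1 := hN 1 j
  have e : (M * N) i j = M i 0 * N 0 j + M i 1 * N 1 j := by
    simp [Matrix.mul_apply, Fin.sum_univ_two]
  rw [e]
  constructor
  · refine (natDegree_add_le _ _).trans (max_le ?_ ?_)
    · exact natDegree_mul_le_of_le h0.1 k0.1
    · exact natDegree_mul_le_of_le h1.1 k1.1
  · rw [coeff_add, coeff_mul_add_eq_of_natDegree_le h0.1 k0.1,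
      coeff_mul_add_eq_of_natDegree_le h1.1 k1.1,
      h0.2, h1.2, k0.2, k1.2]
    ring

/-- The polynomial family of matrices attached to one generator. -/
def genMat (b : K) : Matrix (Fin 2) (Fin 2) K[X] :=
  !![C (b + 1) * X + C (-(2 * b + 1)), C (-(b * (b + 1))) * X + C ((b + 1) ^ 2 + b ^ 2);
     C 1 * X + C (-2), C (-b) * X + C (2 * b + 1)]

theorem genMat_det (b : K) : (genMat b).det = 1 := by
  rw [genMat, Matrix.det_fin_two_of]
  simp only [C_add, C_mul, C_pow, C_1, C_neg]
  have : (C (2:K)) = (2 : K[X]) := rfl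
  rw [this]
  ring

/-- The polynomial family as an element of the special linear group. -/
def gen (b : K) : SpecialLinearGroup (Fin 2) K[X] := ⟨genMat b, genMat_det b⟩

theorem lin_natDegree (a b : K) : (C a * X + C b).natDegree ≤ 1 := natDegree_linear_le

theorem lin_coeff (a b : K) : (C a * X + C b).coeff 1 = a := by
  simp [coeff_C]

theorem neg_lin_natDegree (a b : K) : (-(C a * X + C b)).natDegree ≤ 1 := by
  rw [natDegree_neg]; exact natDegree_linear_le

theorem neg_lin_coeff (a b : K) : (-(C a * X + C b)).coeff 1 = -a := by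
  rw [coeff_neg, lin_coeff]

theorem lead_gen (b : K) : Lead (genMat b) 1 ![b + 1, 1] ![1, -b] := by
  intro p q
  fin_cases p <;> fin_cases q <;>
    simp only [genMat, Fin.zero_eta, Fin.mk_one, Fin.isValue, Matrix.of_apply, Matrix.cons_val_zero,
      Matrix.cons_val_one, Matrix.cons_val', Matrix.cons_val_fin_one] <;>
    refine ⟨lin_natDegree _ _, ?_⟩ <;> rw [lin_coeff] <;> ring

theorem lead_gen_inv (b : K) : Lead (genMat b).adjugate 1 ![b, 1] ![-1, b + 1] := by
  intro p q
  rw [genMat, Matrix.adjugate_fin_two_of]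
  fin_cases p <;> fin_cases q <;>
    simp only [Fin.zero_eta, Fin.mk_one, Fin.isValue, Matrix.of_apply, Matrix.cons_val_zero,
      Matrix.cons_val_one, Matrix.cons_val', Matrix.cons_val_fin_one]
  · refine ⟨lin_natDegree _ _, ?_⟩; rw [lin_coeff]; ring
  · refine ⟨neg_lin_natDegree _ _, ?_⟩; rw [neg_lin_coeff]; ring
  · refine ⟨neg_lin_natDegree _ _, ?_⟩; rw [neg_lin_coeff]; ring
  · refine ⟨lin_natDegree _ _, ?_⟩; rw [lin_coeff]; ring

variable {m : ℕ}

/-- image vector of the leading coefficient of a letter -/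
def vec (K : Type) [Field K] (l : Fin m × Bool) : Fin 2 → K :=
  if l.2 then ![2 * ((l.1 : ℕ) : K) + 1, 1] else ![2 * ((l.1 : ℕ) : K), 1]

/-- covector of the leading coefficient of a letter -/
def cov (K : Type) [Field K] (l : Fin m × Bool) : Fin 2 → K :=
  if l.2 then ![1, -(2 * ((l.1 : ℕ) : K))] else ![-1, 2 * ((l.1 : ℕ) : K) + 1]

/-- the assignment of generators -/
def fam (K : Type) [Field K] (i : Fin m) : SpecialLinearGroup (Fin 2) K[X] :=
  gen (2 * ((i : ℕ) : K))

/-- the matrix of a letter -/
def letter (K : Type) [Field K] (l : Fin m × Bool) : SpecialLinearGroup (Fin 2) K[X] :=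
  cond l.2 (fam K l.1) (fam K l.1)⁻¹

theorem lead_letter (l : Fin m × Bool) :
    Lead (letter K l).1 1 (vec K l) (cov K l) := by
  obtain ⟨i, b⟩ := l
  cases b
  · have : (letter K (i, false)).1 = (genMat (2 * ((i : ℕ) : K))).adjugate :=
      Matrix.SpecialLinearGroup.coe_inv (gen (2 * ((i : ℕ) : K)))
    rw [this]
    simpa [vec, cov] using lead_gen_inv (2 * ((i : ℕ) : K))
  · have : (letter K (i, true)).1 = genMat (2 * ((i : ℕ) : K)) := rfl
    rw [this]
    simpa [vec, cov] using lead_gen (2 * ((i : ℕ) : K))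

theorem pair_ne_zero [CharZero K] (l l' : Fin m × Bool) (h : l.1 = l'.1 → l.2 = l'.2) :
    cov K l 0 * vec K l' 0 + cov K l 1 * vec K l' 1 ≠ 0 := by
  obtain ⟨i, b⟩ := l
  obtain ⟨j, c⟩ := l'
  simp only at h
  intro h0
  have hij : b ≠ c → (i : ℕ) ≠ (j : ℕ) := by
    intro hbc e
    exact hbc (h (Fin.ext e))
  cases b <;> cases c <;> simp [cov, vec] at h0
  · have : ((-(2 * (j : ℤ)) + (2 * (i : ℤ) + 1) : ℤ) : K) = 0 := by
      push_cast; linear_combination h0
    rw [Int.cast_eq_zero] at this
    omega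
  · have : ((-(2 * (j : ℤ) + 1) + (2 * (i : ℤ) + 1) : ℤ) : K) = 0 := by
      push_cast; linear_combination h0
    rw [Int.cast_eq_zero] at this
    have := hij (by decide)
    omega
  · have : (((2 * (j : ℤ)) - (2 * (i : ℤ)) : ℤ) : K) = 0 := by
      push_cast; linear_combination h0
    rw [Int.cast_eq_zero] at this
    have := hij (by decide)
    omega
  · have : (((2 * (j : ℤ)) + 1 - (2 * (i : ℤ)) : ℤ) : K) = 0 := by
      push_cast; linear_combination h0
    rw [Int.cast_eq_zero] at this
    omega

/-- leading behaviour of a reduced word -/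
theorem lead_word [CharZero K] (L : List (Fin m × Bool)) (l : Fin m × Bool)
    (hL : FreeGroup.IsReduced (l :: L)) :
    ∃ c : K, c ≠ 0 ∧ Lead (((l :: L).map (letter K)).prod).1 (l :: L).length (vec K l)
      (fun j => c * cov K ((l :: L).getLast (by simp)) j) := by
  induction L generalizing l with
  | nil =>
    refine ⟨1, one_ne_zero, ?_⟩
    simpa using lead_letter (K := K) l
  | cons l' L ih =>
    have hL' : FreeGroup.IsReduced (l' :: L) := by
      rw [FreeGroup.IsReduced, List.isChain_cons_cons] at hL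
      exact hL.2
    obtain ⟨c, hc, h⟩ := ih l' hL'
    have hp : cov K l 0 * vec K l' 0 + cov K l 1 * vec K l' 1 ≠ 0 := by
      apply pair_ne_zero
      rw [FreeGroup.IsReduced, List.isChain_cons_cons] at hL
      exact hL.1
    refine ⟨(cov K l 0 * vec K l' 0 + cov K l 1 * vec K l' 1) * c, mul_ne_zero hp hc, ?_⟩
    have h2 := (lead_letter (K := K) l).mul h
    rw [List.map_cons, List.prod_cons, Matrix.SpecialLinearGroup.coe_mul, List.length_cons,
      add_comm]
    convert h2 using 1
    funext j
    rw [List.getLast_cons (by simp), mul_assoc]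

/-- a reduced word is sent to the product of its letters -/
theorem lift_mk_eq (L : List (Fin m × Bool)) :
    FreeGroup.lift (fam K) (FreeGroup.mk L) = (L.map (letter K)).prod := by
  rw [FreeGroup.lift_mk]
  rfl

/-- The trace of a nontrivial word along the polynomial family is a nonconstant polynomial. -/
theorem trace_natDegree_pos [CharZero K] (w : FreeGroup (Fin m)) (hw : w ≠ 1) :
    0 < (Matrix.trace ((FreeGroup.lift (fam K) w : SpecialLinearGroup (Fin 2) K[X]) :
      Matrix (Fin 2) (Fin 2) K[X])).natDegree := by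
  set R := FreeGroup.reduceCyclically w.toWord with hR
  set U := FreeGroup.reduceCyclically.conjugator w.toWord with hU
  have hdec : U ++ R ++ FreeGroup.invRev U = w.toWord :=
    FreeGroup.reduceCyclically.conj_conjugator_reduceCyclically w.toWord
  have hw' : w = FreeGroup.mk U * FreeGroup.mk R * (FreeGroup.mk U)⁻¹ := by
    conv_lhs => rw [← FreeGroup.mk_toWord (x := w), ← hdec]
    rw [FreeGroup.inv_mk, FreeGroup.mul_mk, FreeGroup.mul_mk]
  have hRne : R ≠ [] := by
    intro h
    apply hw
    rw [hw', h, ← FreeGroup.one_eq_mk, mul_one, mul_inv_cancel]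
  have hcr : FreeGroup.IsCyclicallyReduced R :=
    FreeGroup.reduceCyclically.isCyclicallyReduced FreeGroup.isReduced_toWord
  have htr : Matrix.trace ((FreeGroup.lift (fam K) w : SpecialLinearGroup (Fin 2) K[X]) :
      Matrix (Fin 2) (Fin 2) K[X]) =
      Matrix.trace ((FreeGroup.lift (fam K) (FreeGroup.mk R) : SpecialLinearGroup (Fin 2) K[X]) :
      Matrix (Fin 2) (Fin 2) K[X]) := by
    rw [hw', map_mul, map_mul, map_inv, Matrix.SpecialLinearGroup.coe_mul,
      Matrix.SpecialLinearGroup.coe_mul, Matrix.trace_mul_comm, ← Matrix.mul_assoc,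
      ← Matrix.SpecialLinearGroup.coe_mul, inv_mul_cancel, Matrix.SpecialLinearGroup.coe_one,
      Matrix.one_mul]
  rw [htr, lift_mk_eq]
  obtain ⟨l, L, hL⟩ := List.exists_cons_of_ne_nil hRne
  rw [hL] at hcr ⊢
  obtain ⟨c, hc, h⟩ := lead_word (K := K) L l hcr.isReduced
  have hlast : cov K ((l :: L).getLast (by simp)) 0 * vec K l 0 +
      cov K ((l :: L).getLast (by simp)) 1 * vec K l 1 ≠ 0 := by
    apply pair_ne_zero
    intro h1
    exact hcr.2 _ (List.getLast?_eq_some_getLast (by simp)) l (by simp) h1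
  have hcoef : (Matrix.trace (((l :: L).map (letter K)).prod :
      SpecialLinearGroup (Fin 2) K[X]).1).coeff (l :: L).length ≠ 0 := by
    rw [Matrix.trace_fin_two, coeff_add, (h 0 0).2, (h 1 1).2]
    intro h0
    apply mul_ne_zero hc hlast
    linear_combination h0
  have := le_natDegree_of_ne_zero hcoef
  refine lt_of_lt_of_le ?_ this
  simp

end Lead

section Roots

variable {K : Type} [Field K] [IsAlgClosed K]

theorem dvd_sq [CharZero K] (P : K[X]) (hP : 0 < P.natDegree) (c : K)
    (h : ∀ z : K, P.eval z = c → (derivative P).eval z = 0) :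
    (P - C c) ∣ (derivative P) ^ 2 := by
  classical
  have hQ : P - C c ≠ 0 := by
    intro h0
    have : P.natDegree = (C c).natDegree := by rw [sub_eq_zero.mp h0]
    rw [natDegree_C] at this
    omega
  have hP' : derivative P ≠ 0 := by
    intro h0
    have := derivative_eq_zero.mp h0
    omega
  rw [IsAlgClosed.dvd_iff_roots_le_roots hQ (pow_ne_zero 2 hP'), Multiset.le_iff_count]
  intro a
  rw [roots_pow, Multiset.count_nsmul, count_roots, count_roots]
  by_cases ha : (P - C c).IsRoot a
  · have h1 := derivative_rootMultiplicity_of_root ha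
    have h2 : derivative (P - C c) = derivative P := by simp
    rw [h2] at h1
    have h3 : (derivative P).IsRoot a := by
      apply h
      have : (P - C c).eval a = 0 := ha
      rw [eval_sub, eval_C] at this
      linear_combination this
    have h4 : 0 < rootMultiplicity a (derivative P) := (rootMultiplicity_pos hP').mpr h3
    omega
  · rw [rootMultiplicity_eq_zero ha]
    exact Nat.zero_le _

/-- A nonconstant polynomial `P` takes one of the values `2`, `-2` at a point where its
derivative does not vanish. -/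
theorem exists_simple [CharZero K] (P : K[X]) (hP : 0 < P.natDegree) :
    ∃ z ε : K, ε ^ 2 = 1 ∧ P.eval z = 2 * ε ∧ (derivative P).eval z ≠ 0 := by
  by_contra hcon
  push Not at hcon
  have h1 : (P - C 2) ∣ (derivative P) ^ 2 := by
    apply dvd_sq P hP
    intro z hz
    exact hcon z 1 (by norm_num) (by rw [hz]; ring)
  have h2 : (P - C (-2)) ∣ (derivative P) ^ 2 := by
    apply dvd_sq P hP
    intro z hz
    exact hcon z (-1) (by norm_num) (by rw [hz]; ring)
  have hcop : IsCoprime (P - C 2) (P - C (-2)) := by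
    refine ⟨C (-1/4), C (1/4), ?_⟩
    have : (C (-1/4) * (P - C 2) + C (1/4) * (P - C (-2)) : K[X]) = C 1 := by
      have e1 : (C (-1/4) : K[X]) = - C (1/4) := by rw [← C_neg]; congr 1; ring
      rw [e1]
      have e2 : (-C (1/4) * (P - C 2) + C (1/4) * (P - C (-2)) : K[X]) =
          C (1/4) * C 2 - C (1/4) * C (-2) := by ring
      rw [e2, ← C_mul, ← C_mul, ← C_sub]
      congr 1
      norm_num
    rw [this, C_1]
  have hd := hcop.mul_dvd h1 h2
  have hP' : derivative P ≠ 0 := by
    intro h0
    have := derivative_eq_zero.mp h0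
    omega
  have hle := natDegree_le_of_dvd hd (pow_ne_zero 2 hP')
  have n1 : (P - C 2).natDegree = P.natDegree := natDegree_sub_C
  have n2 : (P - C (-2)).natDegree = P.natDegree := natDegree_sub_C
  have hne1 : P - C 2 ≠ 0 := by
    intro h0; rw [h0] at n1; simp at n1; omega
  have hne2 : P - C (-2) ≠ 0 := by
    intro h0; rw [h0] at n2; simp at n2; omega
  rw [natDegree_mul hne1 hne2, n1, n2, natDegree_pow] at hle
  have hlt := natDegree_derivative_lt (p := P) (by omega)
  omega

/-- A nonconstant polynomial takes every value. -/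
theorem exists_value (P : K[X]) (hP : 0 < P.natDegree) (c : K) : ∃ z : K, P.eval z = c := by
  have : (P - C c).degree ≠ 0 := by
    intro h
    have h1 : (P - C c).natDegree = 0 := natDegree_eq_zero_iff_degree_le_zero.mpr (le_of_eq h)
    rw [natDegree_sub_C] at h1
    omega
  obtain ⟨z, hz⟩ := IsAlgClosed.exists_root (P - C c) this
  refine ⟨z, ?_⟩
  have : (P - C c).eval z = 0 := hz
  rw [eval_sub, eval_C] at this
  linear_combination this

end Roots

section Conj

variable {K : Type} [Field K]

/-- companion matrix of trace `t` -/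
def comp (t : K) : SpecialLinearGroup (Fin 2) K :=
  ⟨!![0, -1; 1, t], by simp [Matrix.det_fin_two_of]⟩

/-- every nonscalar element of the special linear group over an algebraically closed field
is conjugate to a companion matrix -/
theorem conj_comp [IsAlgClosed K] (A : SpecialLinearGroup (Fin 2) K)
    (hA : ¬ (A 0 1 = 0 ∧ A 1 0 = 0 ∧ A 0 0 = A 1 1)) :
    ∃ D : SpecialLinearGroup (Fin 2) K, A = D * comp (A 0 0 + A 1 1) * D⁻¹ := by
  have hdet : A 0 0 * A 1 1 - A 0 1 * A 1 0 = 1 := by
    have := A.det_coe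
    rwa [Matrix.det_fin_two] at this
  have hv : ∃ x y : K, A 1 0 * x ^ 2 + (A 1 1 - A 0 0) * x * y - A 0 1 * y ^ 2 ≠ 0 := by
    by_contra hcon
    push Not at hcon
    have e1 := hcon 1 0
    have e2 := hcon 0 1
    have e3 := hcon 1 1
    apply hA
    have f1 : A 1 0 = 0 := by linear_combination e1
    have f2 : A 0 1 = 0 := by linear_combination -e2
    refine ⟨f2, f1, ?_⟩
    rw [f1, f2] at e3
    linear_combination -e3
  obtain ⟨x, y, hxy⟩ := hv
  obtain ⟨s, hs⟩ := IsAlgClosed.exists_pow_nat_eq
    ((A 1 0 * x ^ 2 + (A 1 1 - A 0 0) * x * y - A 0 1 * y ^ 2)⁻¹) (n := 2) (by norm_num)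
  set q := A 1 0 * x ^ 2 + (A 1 1 - A 0 0) * x * y - A 0 1 * y ^ 2 with hq
  have hsq : s ^ 2 * q = 1 := by
    rw [hs]; exact inv_mul_cancel₀ hxy
  let D : SpecialLinearGroup (Fin 2) K :=
    ⟨!![s * x, s * (A 0 0 * x + A 0 1 * y); s * y, s * (A 1 0 * x + A 1 1 * y)], by
      rw [Matrix.det_fin_two_of]
      rw [hq] at hsq
      linear_combination hsq⟩
  refine ⟨D, ?_⟩
  rw [eq_mul_inv_iff_mul_eq]
  ext i j
  have hD : (D : Matrix (Fin 2) (Fin 2) K) =
    !![s * x, s * (A 0 0 * x + A 0 1 * y); s * y, s * (A 1 0 * x + A 1 1 * y)] := rfl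
  have hC : (comp (A 0 0 + A 1 1) : Matrix (Fin 2) (Fin 2) K) = !![0, -1; 1, A 0 0 + A 1 1] := rfl
  rw [Matrix.SpecialLinearGroup.coe_mul, Matrix.SpecialLinearGroup.coe_mul, hD, hC,
    Matrix.mul_apply, Matrix.mul_apply, Fin.sum_univ_two, Fin.sum_univ_two]
  fin_cases i <;> fin_cases j <;> simp
  · ring
  · linear_combination (-s * x) * hdet
  · ring
  · linear_combination (-s * y) * hdet

end Conj

section Main

theorem map_lift {α : Type} {G H : Type} [Group G] [Group H] (φ : G →* H) (g : α → G)
    (w : FreeGroup α) : φ (FreeGroup.lift g w) = FreeGroup.lift (fun i => φ (g i)) w := by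
  have : φ.comp (FreeGroup.lift g) = FreeGroup.lift (fun i => φ (g i)) := by
    ext i; simp
  exact DFunLike.congr_fun this w

theorem lift_conj {α : Type} {G : Type} [Group G] (c : G) (g : α → G)
    (w : FreeGroup α) : FreeGroup.lift (fun i => c * g i * c⁻¹) w = c * FreeGroup.lift g w * c⁻¹ := by
  have := map_lift (MulAut.conj c).toMonoidHom g w
  simpa using this.symm

variable {K : Type} [Field K]

/-- scalar element for a sign -/
def sg (ε : K) (h : ε ^ 2 = 1) : SpecialLinearGroup (Fin 2) K :=
  ⟨!![ε, 0; 0, ε], by rw [Matrix.det_fin_two_of]; linear_combination h⟩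

theorem sg_mem (ε : K) (h : ε ^ 2 = 1) :
    sg ε h ∈ Subgroup.center (SpecialLinearGroup (Fin 2) K) := by
  rw [Matrix.SpecialLinearGroup.mem_center_iff]
  refine ⟨ε, by simpa using h, ?_⟩
  ext i j
  fin_cases i <;> fin_cases j <;> simp [sg]

variable [IsAlgClosed K] [CharZero K]

/-- The key statement: every element of the special linear group is, up to a central element,
a value of the word map. -/
theorem key {m : ℕ} (w : FreeGroup (Fin m)) (hw : w ≠ 1) (A : SpecialLinearGroup (Fin 2) K) :
    ∃ (g : Fin m → SpecialLinearGroup (Fin 2) K) (c : SpecialLinearGroup (Fin 2) K),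
      c ∈ Subgroup.center (SpecialLinearGroup (Fin 2) K) ∧ FreeGroup.lift g w * c = A := by
  by_cases hA : A 0 1 = 0 ∧ A 1 0 = 0 ∧ A 0 0 = A 1 1
  · obtain ⟨h01, h10, h00⟩ := hA
    refine ⟨fun _ => 1, A, ?_, ?_⟩
    · have hdet : A 0 0 * A 1 1 - A 0 1 * A 1 0 = 1 := by
        have := A.det_coe
        rwa [Matrix.det_fin_two] at this
      rw [Matrix.SpecialLinearGroup.mem_center_iff]
      refine ⟨A 0 0, ?_, ?_⟩
      · rw [h01, h10, ← h00] at hdet
        simp only [Fintype.card_fin]
        linear_combination hdet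
      · ext i j
        fin_cases i <;> fin_cases j <;> simp [h01, h10, h00]
    · have : FreeGroup.lift (fun _ : Fin m => (1 : SpecialLinearGroup (Fin 2) K)) = 1 := by
        ext i; simp
      rw [this]; simp
  · set W : SpecialLinearGroup (Fin 2) K[X] := FreeGroup.lift (fam K) w with hW
    set P : K[X] := Matrix.trace (W : Matrix (Fin 2) (Fin 2) K[X]) with hPdef
    have hP : 0 < P.natDegree := trace_natDegree_pos w hw
    have hPe : P = W 0 0 + W 1 1 := Matrix.trace_fin_two _
    have hWdet : W 0 0 * W 1 1 - W 0 1 * W 1 0 = 1 := by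
      have := W.det_coe
      rwa [Matrix.det_fin_two] at this
    have hAdet : A 0 0 * A 1 1 - A 0 1 * A 1 0 = 1 := by
      have := A.det_coe
      rwa [Matrix.det_fin_two] at this
    have hz : ∃ z ε : K, ε ^ 2 = 1 ∧ P.eval z = ε * (A 0 0 + A 1 1) ∧
        ¬ ((W 0 1).eval z = 0 ∧ (W 1 0).eval z = 0 ∧ (W 0 0).eval z = (W 1 1).eval z) := by
      by_cases ht : (A 0 0 + A 1 1) ^ 2 = 4
      · obtain ⟨z, ε, hε, hzP, hz'⟩ := exists_simple P hP
        set δ := (A 0 0 + A 1 1) / 2 with hδ
        have hδ2 : δ ^ 2 = 1 := by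
          rw [hδ, div_pow, ht]; norm_num
        refine ⟨z, ε * δ, by rw [mul_pow, hε, hδ2, one_mul], ?_, ?_⟩
        · rw [hzP]
          have : A 0 0 + A 1 1 = 2 * δ := by rw [hδ]; ring
          rw [this]
          linear_combination (-2 * ε) * hδ2
        · rintro ⟨h1, h2, h3⟩
          apply hz'
          have hd : derivative (W 0 0 * W 1 1 - W 0 1 * W 1 0) = 0 := by
            rw [hWdet]; simp
          have hd2 := congrArg (eval z) hd
          simp only [derivative_sub, derivative_mul, eval_sub, eval_add, eval_mul, eval_zero,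
            h1, h2] at hd2
          have hs : (W 1 1).eval z = ε := by
            have : 2 * (W 1 1).eval z = 2 * ε := by
              rw [← hzP, hPe, eval_add, h3]; ring
            exact mul_left_cancel₀ two_ne_zero this
          rw [h3, hs] at hd2
          have hε0 : ε ≠ 0 := by
            rintro rfl
            norm_num at hε
          have : ε * (derivative P).eval z = 0 := by
            rw [hPe, derivative_add, eval_add]
            linear_combination hd2
          exact (mul_eq_zero.mp this).resolve_left hε0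
      · obtain ⟨z, hz⟩ := exists_value P hP (A 0 0 + A 1 1)
        refine ⟨z, 1, by ring, by rw [hz]; ring, ?_⟩
        rintro ⟨h1, h2, h3⟩
        apply ht
        have hd2 := congrArg (eval z) hWdet
        simp only [eval_sub, eval_mul, eval_one, h1, h2, h3] at hd2
        rw [← hz, hPe, eval_add, h3]
        linear_combination 4 * hd2
    obtain ⟨z, ε, hε, hzP, hns⟩ := hz
    set f : SpecialLinearGroup (Fin 2) K[X] →* SpecialLinearGroup (Fin 2) K :=
      Matrix.SpecialLinearGroup.map (evalRingHom z) with hf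
    have hfe : ∀ i j, (f W) i j = (W i j).eval z := by
      intro i j
      rfl
    set B : SpecialLinearGroup (Fin 2) K := f W * sg ε hε with hB
    have hBe : ∀ i j, B i j = ε * (W i j).eval z := by
      intro i j
      rw [← hfe, hB, Matrix.SpecialLinearGroup.coe_mul, Matrix.mul_apply, Fin.sum_univ_two]
      fin_cases j <;> simp [sg] <;> ring
    have hε0 : ε ≠ 0 := by
      rintro rfl
      norm_num at hε
    have hBtr : B 0 0 + B 1 1 = A 0 0 + A 1 1 := by
      rw [hBe, hBe, ← mul_add, ← eval_add, ← hPe, hzP]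
      linear_combination (A 0 0 + A 1 1) * hε
    have hBns : ¬ (B 0 1 = 0 ∧ B 1 0 = 0 ∧ B 0 0 = B 1 1) := by
      rw [hBe, hBe, hBe, hBe]
      rintro ⟨h1, h2, h3⟩
      exact hns ⟨(mul_eq_zero.mp h1).resolve_left hε0, (mul_eq_zero.mp h2).resolve_left hε0,
        mul_left_cancel₀ hε0 h3⟩
    obtain ⟨D, hD⟩ := conj_comp A hA
    obtain ⟨E, hE⟩ := conj_comp B hBns
    rw [hBtr] at hE
    have hcomp : comp (A 0 0 + A 1 1) = E⁻¹ * B * E := by
      rw [hE]; group
    have hcen := sg_mem ε hε
    refine ⟨fun i => (D * E⁻¹) * f (fam K i) * (D * E⁻¹)⁻¹, sg ε hε, hcen, ?_⟩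
    rw [lift_conj, ← map_lift f (fam K) w, ← hW, hD, hcomp, hB]
    rw [Subgroup.mem_center_iff] at hcen
    have h1 := hcen ((D * E⁻¹)⁻¹)
    rw [mul_assoc, h1]
    group

/-- Word maps of nontrivial words on `PSL₂` are surjective. -/
theorem main {m : ℕ} (w : FreeGroup (Fin m)) (hw : w ≠ 1)
    (a : SpecialLinearGroup (Fin 2) K ⧸ Subgroup.center (SpecialLinearGroup (Fin 2) K)) :
    ∃ g : Fin m → SpecialLinearGroup (Fin 2) K ⧸
      Subgroup.center (SpecialLinearGroup (Fin 2) K), FreeGroup.lift g w = a := by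
  obtain ⟨A, rfl⟩ := QuotientGroup.mk'_surjective _ a
  obtain ⟨g, c, hc, h⟩ := key w hw A
  refine ⟨fun i => QuotientGroup.mk' _ (g i), ?_⟩
  rw [← map_lift, ← h, map_mul]
  have : (QuotientGroup.mk' (Subgroup.center (SpecialLinearGroup (Fin 2) K))) c = 1 := by
    rw [QuotientGroup.mk'_apply, QuotientGroup.eq_one_iff]
    exact hc
  rw [this, mul_one]

end Main

end Pool.Agent.Helper385.PSL2
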