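import Mathlib
import Pool.Agent.Helper385.PSL2

set_option autoImplicit false

open Matrix

namespace Pool.Agent.Helper385.Char2

section Algebra

variable {R : Type} [CommRing R]

theorem CH (A : Matrix (Fin 2) (Fin 2) R) : A * A = A.trace • A - A.det • 1 := by
  ext i j
  fin_cases i <;> fin_cases j <;>
    simp [Matrix.mul_apply, Fin.sum_univ_two, Matrix.trace_fin_two, Matrix.det_fin_two] <;> ring

theorem TX (X Y : Matrix (Fin 2) (Fin 2) R) :
    (X * Y - Y * X) * X = X.adjugate * (X * Y - Y * X) := by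
  ext i j
  fin_cases i <;> fin_cases j <;>
    simp [Matrix.mul_apply, Fin.sum_univ_two, Matrix.adjugate_fin_two] <;> ring

theorem TY (X Y : Matrix (Fin 2) (Fin 2) R) :
    (X * Y - Y * X) * Y = Y.adjugate * (X * Y - Y * X) := by
  ext i j
  fin_cases i <;> fin_cases j <;>
    simp [Matrix.mul_apply, Fin.sum_univ_two, Matrix.adjugate_fin_two] <;> ring

theorem trT (X Y : Matrix (Fin 2) (Fin 2) R) : (X * Y - Y * X).trace = 0 := by
  rw [Matrix.trace_sub, Matrix.trace_mul_comm, sub_self]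

theorem det_sub_one (U : Matrix (Fin 2) (Fin 2) R) (h : U.det = 1) :
    (U - 1).det = 2 - U.trace := by
  rw [Matrix.det_fin_two] at h ⊢
  simp [Matrix.trace_fin_two]
  linear_combination h

/-- The word `[x,y]²[x⁻¹,y⁻¹]²` never takes a nontrivial unipotent value on `SL₂` of a field of
characteristic two. -/
theorem word_ne {K : Type} [Field K] [CharP K 2] (X Y : SpecialLinearGroup (Fin 2) K)
    (h : SpecialLinearGroup (Fin 2) K) (h1 : h ≠ 1) (htr : (h : Matrix (Fin 2) (Fin 2) K).trace = 0) :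
    (X * Y * X⁻¹ * Y⁻¹) ^ 2 * (X⁻¹ * Y⁻¹ * X * Y) ^ 2 ≠ h := by
  intro hw
  have h2 : (2 : K) = 0 := CharTwo.two_eq_zero
  set U := X * Y * X⁻¹ * Y⁻¹ with hU
  set V := X⁻¹ * Y⁻¹ * X * Y with hV
  set T : Matrix (Fin 2) (Fin 2) K := (X : Matrix (Fin 2) (Fin 2) K) * Y - Y * X with hT
  have cX : ((X⁻¹ : SpecialLinearGroup (Fin 2) K) : Matrix (Fin 2) (Fin 2) K) =
    (X : Matrix (Fin 2) (Fin 2) K).adjugate := Matrix.SpecialLinearGroup.coe_inv X
  have cY : ((Y⁻¹ : SpecialLinearGroup (Fin 2) K) : Matrix (Fin 2) (Fin 2) K) =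
    (Y : Matrix (Fin 2) (Fin 2) K).adjugate := Matrix.SpecialLinearGroup.coe_inv Y
  have hTX : T * X = (X⁻¹ : SpecialLinearGroup (Fin 2) K) * T := by rw [cX]; exact TX _ _
  have hTY : T * Y = (Y⁻¹ : SpecialLinearGroup (Fin 2) K) * T := by rw [cY]; exact TY _ _
  have inv1 : ∀ Z : SpecialLinearGroup (Fin 2) K,
      (Z : Matrix (Fin 2) (Fin 2) K) * (Z⁻¹ : SpecialLinearGroup (Fin 2) K) = 1 := by
    intro Z
    rw [← Matrix.SpecialLinearGroup.coe_mul, mul_inv_cancel, Matrix.SpecialLinearGroup.coe_one]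
  have flip : ∀ Z : SpecialLinearGroup (Fin 2) K,
      T * Z = (Z⁻¹ : SpecialLinearGroup (Fin 2) K) * T →
      T * (Z⁻¹ : SpecialLinearGroup (Fin 2) K) = Z * T := by
    intro Z hZ
    calc T * (Z⁻¹ : SpecialLinearGroup (Fin 2) K)
        = (Z * (Z⁻¹ : SpecialLinearGroup (Fin 2) K)) * T * (Z⁻¹ : SpecialLinearGroup (Fin 2) K) := by
          rw [inv1, Matrix.one_mul]
      _ = Z * (((Z⁻¹ : SpecialLinearGroup (Fin 2) K) * T)
            * (Z⁻¹ : SpecialLinearGroup (Fin 2) K)) := by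
          simp only [Matrix.mul_assoc]
      _ = Z * T * (Z * (Z⁻¹ : SpecialLinearGroup (Fin 2) K)) := by
          rw [← hZ]; simp only [Matrix.mul_assoc]
      _ = Z * T := by rw [inv1, Matrix.mul_one]
  have hTX' := flip X hTX
  have hTY' := flip Y hTY
  have hTU : T * U = V * T := by
    rw [hU, hV]
    simp only [Matrix.SpecialLinearGroup.coe_mul]
    calc T * ((X : Matrix (Fin 2) (Fin 2) K) * Y * (X⁻¹ : SpecialLinearGroup (Fin 2) K) *
          (Y⁻¹ : SpecialLinearGroup (Fin 2) K))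
        = (T * X) * Y * (X⁻¹ : SpecialLinearGroup (Fin 2) K) *
          (Y⁻¹ : SpecialLinearGroup (Fin 2) K) := by simp only [Matrix.mul_assoc]
      _ = (X⁻¹ : SpecialLinearGroup (Fin 2) K) * (T * Y) * (X⁻¹ : SpecialLinearGroup (Fin 2) K) *
          (Y⁻¹ : SpecialLinearGroup (Fin 2) K) := by rw [hTX]; simp only [Matrix.mul_assoc]
      _ = (X⁻¹ : SpecialLinearGroup (Fin 2) K) * (Y⁻¹ : SpecialLinearGroup (Fin 2) K) *
          (T * (X⁻¹ : SpecialLinearGroup (Fin 2) K)) *
          (Y⁻¹ : SpecialLinearGroup (Fin 2) K) := by rw [hTY]; simp only [Matrix.mul_assoc]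
      _ = (X⁻¹ : SpecialLinearGroup (Fin 2) K) * (Y⁻¹ : SpecialLinearGroup (Fin 2) K) *
          X * (T * (Y⁻¹ : SpecialLinearGroup (Fin 2) K)) := by
          rw [hTX']; simp only [Matrix.mul_assoc]
      _ = _ := by rw [hTY']; simp only [Matrix.mul_assoc]
  have hTT : T * T = (-T.det) • (1 : Matrix (Fin 2) (Fin 2) K) := by
    have := CH T
    rw [hT, trT, ← hT, zero_smul, zero_sub, ← neg_smul] at this
    exact this
  set κ : K := -T.det with hκ
  set M : Matrix (Fin 2) (Fin 2) K := U * U * T with hM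
  have hMM : M * M = κ • (h : Matrix (Fin 2) (Fin 2) K) := by
    have e1 : M * M = U * U * (T * U) * U * T := by rw [hM]; simp only [Matrix.mul_assoc]
    rw [e1, hTU]
    have e2 : (U : Matrix (Fin 2) (Fin 2) K) * U * (V * T) * U * T =
      U * U * V * (T * U) * T := by simp only [Matrix.mul_assoc]
    rw [e2, hTU]
    have e3 : (U : Matrix (Fin 2) (Fin 2) K) * U * V * (V * T) * T =
      U * U * V * V * (T * T) := by simp only [Matrix.mul_assoc]
    rw [e3, hTT, Matrix.mul_smul, Matrix.mul_one, ← hw]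
    simp only [Matrix.SpecialLinearGroup.coe_mul, pow_two, Matrix.mul_assoc]
  have hdM : M.det = T.det := by
    rw [hM, Matrix.det_mul, Matrix.det_mul]
    simp
  have hCM := CH M
  rw [hMM, hdM] at hCM
  have htrM : M.trace = 0 := by
    have := congrArg Matrix.trace hCM
    rw [Matrix.trace_smul, htr, Matrix.trace_sub, Matrix.trace_smul, Matrix.trace_smul,
      Matrix.trace_one, Fintype.card_fin] at this
    simp only [smul_eq_mul, Nat.cast_ofNat, h2, mul_zero, sub_zero] at this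
    exact mul_self_eq_zero.mp this.symm
  have hκ0 : κ = 0 := by
    rw [htrM, zero_smul, zero_sub, ← neg_smul, ← hκ] at hCM
    by_contra hne
    apply h1
    ext i j
    have := congrFun (congrFun (smul_right_injective _ hne hCM) i) j
    simpa using this
  have hTdet : T.det = 2 - (U : Matrix (Fin 2) (Fin 2) K).trace := by
    have e : T = ((U : Matrix (Fin 2) (Fin 2) K) - 1) * ((Y : Matrix (Fin 2) (Fin 2) K) * X) := by
      have e0 : U * (Y * X) = X * Y := by
        rw [hU]; group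
      rw [Matrix.sub_mul, Matrix.one_mul, hT, ← Matrix.SpecialLinearGroup.coe_mul Y X,
        ← Matrix.SpecialLinearGroup.coe_mul U, e0, Matrix.SpecialLinearGroup.coe_mul X Y,
        Matrix.SpecialLinearGroup.coe_mul Y X]
    rw [e, Matrix.det_mul, det_sub_one _ U.det_coe, Matrix.det_mul]
    simp
  have hUtr : (U : Matrix (Fin 2) (Fin 2) K).trace = 0 := by
    have : T.det = 0 := by rw [hκ] at hκ0; exact neg_eq_zero.mp hκ0
    rw [this, h2] at hTdet
    linear_combination hTdet
  have hVtr : (V : Matrix (Fin 2) (Fin 2) K).trace = 0 := by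
    rw [← hUtr, hU, hV]
    simp only [Matrix.SpecialLinearGroup.coe_mul]
    rw [Matrix.mul_assoc, Matrix.trace_mul_comm]
    simp only [Matrix.mul_assoc]
  have sq1 : ∀ Z : SpecialLinearGroup (Fin 2) K, (Z : Matrix (Fin 2) (Fin 2) K).trace = 0 →
      Z ^ 2 = 1 := by
    intro Z hZ
    apply Subtype.ext
    have e1 := CH (Z : Matrix (Fin 2) (Fin 2) K)
    rw [hZ, zero_smul, zero_sub, Z.det_coe, one_smul] at e1
    change ((Z ^ 2 : SpecialLinearGroup (Fin 2) K) : Matrix (Fin 2) (Fin 2) K) = 1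
    rw [pow_two, Matrix.SpecialLinearGroup.coe_mul, e1]
    have : (-1 : Matrix (Fin 2) (Fin 2) K) = (-1 : K) • 1 := by simp
    rw [this]
    have : (-1 : K) = 1 := by linear_combination -h2
    rw [this, one_smul]
  rw [sq1 U hUtr, sq1 V hVtr] at hw
  exact h1 (by rw [← hw]; simp)

end Algebra

section Simple

open Pool.Agent.Helper385.PSL2 (conj_comp map_lift)

variable {K : Type} [Field K] [CharP K 2]

theorem two0 : (2 : K) = 0 := CharTwo.two_eq_zero

theorem nonscalar_of_ne_one (A : SpecialLinearGroup (Fin 2) K) (h : A ≠ 1) :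
    ¬ (A 0 1 = 0 ∧ A 1 0 = 0 ∧ A 0 0 = A 1 1) := by
  rintro ⟨h01, h10, h00⟩
  apply h
  have hdet : A 0 0 * A 1 1 - A 0 1 * A 1 0 = 1 := by
    have := A.det_coe
    rwa [Matrix.det_fin_two] at this
  have h1 : A 1 1 = 1 := by
    rw [h00, h01] at hdet
    have : (A 1 1 - 1) * (A 1 1 - 1) = 0 := by
      linear_combination hdet + (1 - A 1 1) * two0 (K := K)
    exact sub_eq_zero.mp (mul_self_eq_zero.mp this)
  ext i j
  fin_cases i <;> fin_cases j <;> simp [h01, h10, h00, h1]

theorem comp_ne_one (t : K) : PSL2.comp t ≠ 1 := by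
  intro h
  have := congrArg (fun A : SpecialLinearGroup (Fin 2) K => A 1 0) h
  simp [PSL2.comp] at this

variable [IsAlgClosed K]

theorem comp_mem (N : Subgroup (SpecialLinearGroup (Fin 2) K)) (hN : N.Normal)
    (A : SpecialLinearGroup (Fin 2) K) (hA : A ∈ N) (h : A ≠ 1) : PSL2.comp (A 0 0 + A 1 1) ∈ N := by
  obtain ⟨D, hD⟩ := conj_comp A (nonscalar_of_ne_one A h)
  have : PSL2.comp (A 0 0 + A 1 1) = D⁻¹ * A * D⁻¹⁻¹ := by
    conv_rhs => rw [hD]
    group
  rw [this]
  exact hN.conj_mem A hA D⁻¹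

theorem mem_comp (N : Subgroup (SpecialLinearGroup (Fin 2) K)) (hN : N.Normal)
    (A : SpecialLinearGroup (Fin 2) K) (hA : PSL2.comp (A 0 0 + A 1 1) ∈ N) : A ∈ N := by
  by_cases h : A = 1
  · rw [h]; exact N.one_mem
  · obtain ⟨D, hD⟩ := conj_comp A (nonscalar_of_ne_one A h)
    rw [hD]
    exact hN.conj_mem _ hA D

theorem simple_SL2 : IsSimpleGroup (SpecialLinearGroup (Fin 2) K) := by
  refine { exists_pair_ne := ⟨PSL2.comp 0, 1, comp_ne_one 0⟩, eq_bot_or_eq_top_of_normal := ?_ }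
  intro N hN
  by_cases hbot : N = ⊥
  · exact Or.inl hbot
  right
  obtain ⟨⟨A, hA⟩, hA0⟩ := Subgroup.ne_bot_iff_exists_ne_one.mp hbot
  have hA1 : A ≠ 1 := fun h => hA0 (Subtype.ext h)
  have hC := comp_mem N hN A hA hA1
  set t := A 0 0 + A 1 1 with ht
  have step : ∀ τ : K, τ ≠ 0 → PSL2.comp τ ∈ N := by
    intro τ hτ
    obtain ⟨r, hr⟩ := IsAlgClosed.exists_pow_nat_eq τ (n := 2) (by norm_num)
    let g : SpecialLinearGroup (Fin 2) K := ⟨!![1, r; 0, 1], by simp [Matrix.det_fin_two_of]⟩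
    have hB : PSL2.comp t * (g * (PSL2.comp t)⁻¹ * g⁻¹) ∈ N :=
      N.mul_mem hC (hN.conj_mem _ (N.inv_mem hC) g)
    set B := PSL2.comp t * (g * (PSL2.comp t)⁻¹ * g⁻¹) with hBdef
    have hBm : (B : Matrix (Fin 2) (Fin 2) K) = !![1, -r; -r, 1 + r ^ 2] := by
      rw [hBdef]
      simp only [Matrix.SpecialLinearGroup.coe_mul, Matrix.SpecialLinearGroup.coe_inv]
      have e1 : (PSL2.comp t : Matrix (Fin 2) (Fin 2) K) = !![0, -1; 1, t] := rfl
      have e2 : (g : Matrix (Fin 2) (Fin 2) K) = !![1, r; 0, 1] := rfl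
      rw [e1, e2, Matrix.adjugate_fin_two_of, Matrix.adjugate_fin_two_of]
      ext i j
      fin_cases i <;> fin_cases j <;> simp [Matrix.mul_apply, Fin.sum_univ_two] <;> ring
    have h00 : B 0 0 = 1 := by rw [hBm]; rfl
    have h01 : B 0 1 = -r := by rw [hBm]; rfl
    have h11 : B 1 1 = 1 + r ^ 2 := by rw [hBm]; rfl
    have hB1 : B ≠ 1 := by
      intro h
      have : B 0 1 = 0 := by rw [h]; simp
      rw [h01] at this
      apply hτ
      rw [← hr, neg_eq_zero.mp this]
      simp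
    have := comp_mem N hN B hB hB1
    have e : B 0 0 + B 1 1 = τ := by
      rw [h00, h11, ← hr]
      linear_combination two0 (K := K)
    rwa [e] at this
  have step0 : PSL2.comp (0 : K) ∈ N := by
    classical
    have : Infinite K := IsAlgClosed.instInfinite
    obtain ⟨ω, hω⟩ := Infinite.exists_notMem_finset ({0, 1} : Finset K)
    simp only [Finset.mem_insert, Finset.mem_singleton, not_or] at hω
    obtain ⟨hω0, hω1⟩ := hω
    let P : SpecialLinearGroup (Fin 2) K := ⟨!![1, ω; -ω⁻¹, 0], by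
      rw [Matrix.det_fin_two_of]; field_simp; ring⟩
    let Q : SpecialLinearGroup (Fin 2) K := ⟨!![-ω, 0; 1, -ω⁻¹], by
      rw [Matrix.det_fin_two_of]; field_simp; ring⟩
    have hPQ : PSL2.comp (0 : K) = P * Q := by
      ext i j
      rw [Matrix.SpecialLinearGroup.coe_mul]
      have e1 : (PSL2.comp (0 : K) : Matrix (Fin 2) (Fin 2) K) = !![0, -1; 1, 0] := rfl
      have e2 : (P : Matrix (Fin 2) (Fin 2) K) = !![1, ω; -ω⁻¹, 0] := rfl
      have e3 : (Q : Matrix (Fin 2) (Fin 2) K) = !![-ω, 0; 1, -ω⁻¹] := rfl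
      rw [e1, e2, e3]
      fin_cases i <;> fin_cases j <;> simp [Matrix.mul_apply, Fin.sum_univ_two, hω0]
    have hP : P ∈ N := by
      apply mem_comp N hN
      have : P 0 0 + P 1 1 = 1 := by
        change (1 : K) + 0 = 1
        ring
      rw [this]
      exact step 1 one_ne_zero
    have hQ : Q ∈ N := by
      apply mem_comp N hN
      have : Q 0 0 + Q 1 1 = -(ω + ω⁻¹) := by
        change -ω + -ω⁻¹ = -(ω + ω⁻¹)
        ring
      rw [this]
      apply step
      intro h0
      apply hω1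
      have h1 : ω + ω⁻¹ = 0 := neg_eq_zero.mp h0
      have h2 : ω * ω + 1 = 0 := by
        have := congrArg (fun z => ω * z) h1
        simp only [mul_add, mul_inv_cancel₀ hω0, mul_zero] at this
        exact this
      have h3 : (ω - 1) * (ω - 1) = 0 := by
        linear_combination h2 - ω * two0 (K := K)
      exact sub_eq_zero.mp (mul_self_eq_zero.mp h3)
    rw [hPQ]
    exact N.mul_mem hP hQ
  rw [Subgroup.eq_top_iff']
  intro B
  apply mem_comp N hN
  by_cases h : B 0 0 + B 1 1 = 0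
  · rw [h]; exact step0
  · exact step _ h

end Simple

section Param

variable {K : Type} [Field K]

/-- parametrisation of `SL₂` by four elementary factors -/
def par (v : Fin 4 → K) : Fin 2 → Fin 2 → K :=
  ![![1 + v 1 * v 2, v 3 + v 1 * (1 + v 2 * v 3)],
    ![v 0 + (1 + v 0 * v 1) * v 2, v 0 * v 3 + (1 + v 0 * v 1) * (1 + v 2 * v 3)]]

/-- polynomial version of `par` -/
noncomputable def parP (K : Type) [Field K] : Fin 2 → Fin 2 → MvPolynomial (Fin 4) K :=
  ![![1 + MvPolynomial.X 1 * MvPolynomial.X 2,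
      MvPolynomial.X 3 + MvPolynomial.X 1 * (1 + MvPolynomial.X 2 * MvPolynomial.X 3)],
    ![MvPolynomial.X 0 + (1 + MvPolynomial.X 0 * MvPolynomial.X 1) * MvPolynomial.X 2,
      MvPolynomial.X 0 * MvPolynomial.X 3 + (1 + MvPolynomial.X 0 * MvPolynomial.X 1) *
        (1 + MvPolynomial.X 2 * MvPolynomial.X 3)]]

theorem eval_parP (v : Fin 4 → K) (i j : Fin 2) :
    MvPolynomial.aeval v (parP K i j) = par v i j := by
  fin_cases i <;> fin_cases j <;> simp [parP, par]

theorem par_det (v : Fin 4 → K) : par v 0 0 * par v 1 1 - par v 0 1 * par v 1 0 = 1 := by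
  simp [par]
  ring

theorem par_surj (a b c d : K) (h : a * d - b * c = 1) :
    ∃ v : Fin 4 → K, par v = ![![a, b], ![c, d]] := by
  by_cases hc : c = 0
  · have ha : a ≠ 0 := by
      rintro rfl
      rw [hc] at h
      simp at h
    refine ⟨![1, (a - 1) / (-a), -a, ((d - b) - 1) / (-a)], ?_⟩
    funext i j
    fin_cases i <;> fin_cases j <;> simp [par] <;> field_simp
    · ring
    · linear_combination (-1 : K) * h + (-b) * hc
    · rw [hc]; ring
    · linear_combination (-1 : K) * h + (-b) * hc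
  · refine ⟨![0, (a - 1) / c, c, (d - 1) / c], ?_⟩
    funext i j
    fin_cases i <;> fin_cases j <;> simp [par] <;> field_simp
    · ring
    · linear_combination h
    · ring

end Param

end Pool.Agent.Helper385.Char2
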